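import Pool.Agent.V11311.PL.E

/-! The law of `a D(a)`, part F: the limiting distribution. -/

set_option autoImplicit false

namespace Pool.Agent.V11311.PL

open Finset Filter Topology MeasureTheory Pool.Agent.V11311.PD

/-- bounded continuous functions -/
theorem emp_bc {w : ℕ → ℝ} {ν : ProbabilityMeasure ℝ} (h : Tendsto (emp w) atTop (𝓝 ν)) {f : ℝ → ℝ}
    (hf : Continuous f) {K : ℝ} (hK : ∀ x, |f x| ≤ K) :
    Tendsto (fun N : ℕ => (∑ a ∈ Icc 1 N, f (w a)) / N) atTop (𝓝 (∫ x, f x ∂(ν : Measure ℝ))) := by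
  rw [ProbabilityMeasure.tendsto_iff_forall_integral_tendsto] at h
  have h1 := h (BoundedContinuousFunction.ofNormedAddCommGroup f hf K hK)
  have h2 : Tendsto (fun N : ℕ => ∫ x, f x ∂(empM w N)) atTop (𝓝 (∫ x, f x ∂(ν : Measure ℝ))) := h1
  simp only [empM_integral, smul_eq_mul] at h2
  rw [← tendsto_add_atTop_iff_nat 1]
  refine h2.congr fun N => ?_
  rw [div_eq_inv_mul]

theorem lip_cont {f : ℝ → ℝ} {L : ℝ} (hL : 0 ≤ L) (hf : ∀ x y, |f x - f y| ≤ L * |x - y|) : Continuous f := by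
  have : LipschitzWith ⟨L, hL⟩ f := by
    apply LipschitzWith.of_dist_le_mul
    intro x y
    rw [Real.dist_eq, Real.dist_eq]
    exact hf x y
  exact this.continuous

/-- unbounded functions of linear growth -/
theorem LP.lint {w : ℕ → ℝ} {g : ℕ → ℕ → ℝ} {C : ℝ} (h : LP w g C) {ν : ProbabilityMeasure ℝ}
    (hν : Tendsto (emp w) atTop (𝓝 ν)) {f : ℝ → ℝ} {L : ℝ} (hL : 0 ≤ L) (hf0 : ∀ x, 0 ≤ f x)
    (hf : ∀ x y, |f x - f y| ≤ L * |x - y|) {I : ℝ} (hI : ∀ m : ℕ, 1 ≤ m → |Mm g f m - I| ≤ (3 * L * C + 1) / m) :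
    ∫⁻ x, ENNReal.ofReal (f x) ∂(ν : Measure ℝ) = ENNReal.ofReal I := by
  have hC := h.C0
  have hcont := lip_cont hL hf
  -- truncations
  have hK : ∀ K : ℕ, ∃ IK : ℝ, (∀ m : ℕ, 1 ≤ m → |Mm g (fun x => min (f x) K) m - IK| ≤ (3 * L * C + 1) / m) ∧
      ∫ x, min (f x) (K : ℝ) ∂(ν : Measure ℝ) = IK := by
    intro K
    have hlip : ∀ x y, |min (f x) (K : ℝ) - min (f y) K| ≤ L * |x - y| := fun x y =>
      (abs_min_sub_min_le_max _ _ _ _).trans (by
        rw [sub_self, abs_zero]
        exact max_le (hf x y) (by positivity))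
    obtain ⟨IK, h1, h2⟩ := h.lim hL hlip
    refine ⟨IK, h1, ?_⟩
    have h3 := emp_bc hν (hcont.min continuous_const) (K := (K : ℝ)) (fun x => by
      rw [abs_of_nonneg (le_min (hf0 x) (Nat.cast_nonneg K))]
      exact min_le_right _ _)
    exact tendsto_nhds_unique h3 h2
  choose J hJ1 hJ2 using hK
  have hJlim : Tendsto J atTop (𝓝 I) := by
    rw [Metric.tendsto_atTop]
    intro ε hε
    obtain ⟨m, hm⟩ := exists_nat_gt (2 * (3 * L * C + 1) / ε)
    have hE : 0 < 3 * L * C + 1 := by positivity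
    have hm0 : (0 : ℝ) < m := lt_trans (by positivity) hm
    have hm1 : 1 ≤ m := by
      have : 0 < m := by exact_mod_cast hm0
      exact this
    obtain ⟨K0, hK0⟩ := exists_nat_ge (∑ c ∈ range (3 ^ m), f (g m c))
    refine ⟨K0, fun K hK => ?_⟩
    have hMm : Mm g (fun x => min (f x) (K : ℝ)) m = Mm g f m := by
      unfold Mm
      congr 1
      apply sum_congr rfl
      intro c hc
      apply min_eq_left
      have h1 : f (g m c) ≤ ∑ c ∈ range (3 ^ m), f (g m c) :=
        single_le_sum (f := fun c => f (g m c)) (fun c _ => hf0 _) hc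
      have h2 : (K0 : ℝ) ≤ K := by exact_mod_cast hK
      linarith
    have h1 := hJ1 K m hm1
    have h2 := hI m hm1
    rw [hMm] at h1
    rw [Real.dist_eq]
    have h3 := abs_sub_le (J K) (Mm g f m) I
    rw [abs_sub_comm] at h1
    rw [div_lt_iff₀ hε] at hm
    have h4 : 2 * ((3 * L * C + 1) / m) < ε := by
      rw [mul_div_assoc', div_lt_iff₀ hm0]
      linarith
    linarith
  have hmono := lintegral_tendsto_of_tendsto_of_monotone (μ := (ν : Measure ℝ))
    (f := fun K : ℕ => fun x => ENNReal.ofReal (min (f x) (K : ℝ))) (F := fun x => ENNReal.ofReal (f x))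
    (fun K => ((hcont.min continuous_const).measurable.ennreal_ofReal).aemeasurable) (by
      filter_upwards with x
      intro K K' hKK
      apply ENNReal.ofReal_le_ofReal
      exact min_le_min_left _ (by exact_mod_cast hKK)) (by
      filter_upwards with x
      apply tendsto_atTop_of_eventually_const (i₀ := ⌈f x⌉₊)
      intro K hK
      rw [min_eq_left]
      exact (Nat.le_ceil _).trans (by exact_mod_cast hK))
  have h5 : ∀ K : ℕ, ∫⁻ x, ENNReal.ofReal (min (f x) (K : ℝ)) ∂(ν : Measure ℝ) = ENNReal.ofReal (J K) := by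
    intro K
    rw [← hJ2 K, ofReal_integral_eq_lintegral_ofReal]
    · apply Integrable.of_bound (C := (K : ℝ)) (hcont.min continuous_const).aestronglyMeasurable
      filter_upwards with x
      rw [Real.norm_eq_abs, abs_of_nonneg (le_min (hf0 x) (Nat.cast_nonneg K))]
      exact min_le_right _ _
    · filter_upwards with x
      exact le_min (hf0 x) (Nat.cast_nonneg K)
  simp only [h5] at hmono
  exact tendsto_nhds_unique hmono ((ENNReal.continuous_ofReal.tendsto I).comp hJlim)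

theorem s_mono {D : ℕ → ℝ} {s : ℝ → ℝ} (hs : SQ D s) {R R' : ℝ} (hR : 0 < R) (h : R ≤ R') : s R ≤ s R' := by
  apply le_of_tendsto_of_tendsto' (hs R hR 1 0 le_rfl (by norm_num) (by norm_num))
    (hs R' (by linarith) 1 0 le_rfl (by norm_num) (by norm_num))
  intro N
  apply div_le_div_of_nonneg_right _ (Nat.cast_nonneg _)
  exact sum_le_sum fun i _ => phi_mono_R hR h _

theorem s_unbounded {D : ℕ → ℝ} (hD : IsD D) {c : ℝ} (hc : 0 < c) (hlow : ∀ a : ℕ, 0 < a → ¬ 3 ∣ a → c ≤ a * D a)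
    {s : ℝ → ℝ} (hs : SQ D s) (K : ℝ) : ∃ R : ℝ, 0 < R ∧ K ≤ s R := by
  by_contra hcon
  push Not at hcon
  have hbdd : BddAbove (s '' Set.Ioi 0) := by
    refine ⟨K, ?_⟩
    rintro _ ⟨R, hR, rfl⟩
    exact (hcon R hR).le
  have hne : (s '' Set.Ioi 0).Nonempty := ⟨s 1, 1, by simp, rfl⟩
  set V := sSup (s '' Set.Ioi 0) with hV
  have hη : 0 < c ^ 2 / 6 := by positivity
  obtain ⟨_, ⟨R1, hR1, rfl⟩, h1⟩ := exists_lt_of_lt_csSup hne (by linarith : V - c ^ 2 / 6 / 2 < V)
  have hR1' : 0 < R1 := hR1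
  set R := max (2 * c) (3 * R1 / 2) with hR
  have hRc : 2 * c ≤ R := le_max_left _ _
  have hR1R : 3 * R1 / 2 ≤ R := le_max_right _ _
  have hR0 : 0 < R := by linarith
  have h2 : s R1 ≤ s (2 * R) := s_mono hs hR1' (by linarith)
  have h3 : s R1 ≤ s (2 * R / 3) := s_mono hs hR1' (by linarith)
  have h4 := key hD hc hlow hs hRc
  have h5 : s R ≤ V := le_csSup hbdd ⟨R, hR0, rfl⟩
  linarith

/-- THE LIMITING DISTRIBUTION -/
theorem law {D : ℕ → ℝ} (hD : IsD D) : ∃ ν : Measure ℝ, IsProbabilityMeasure ν ∧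
    (∀ f : ℝ → ℝ, Continuous f → (∃ K : ℝ, ∀ x, |f x| ≤ K) →
      Tendsto (fun N : ℕ => (∑ a ∈ Icc 1 N, f (a * D a)) / N) atTop (𝓝 (∫ x, f x ∂ν))) ∧
    ν {0} = 1 / 3 ∧ (∃ c : ℝ, 0 < c ∧ ν (Set.Iio c \ {0}) = 0) ∧ Integrable (fun x : ℝ => x) ν ∧
    ∫ x, x ∂ν = 2 / Real.log (4 / 3) ∧ ∫⁻ x, ENNReal.ofReal (x ^ 2) ∂ν = ⊤ := by
  classical
  obtain ⟨C, hLP⟩ := wG_LP hD
  obtain ⟨ν, hν⟩ := hLP.exists_nu
  obtain ⟨c, hc, hlow'⟩ := D_lower
  have hlow := hlow' D hD
  set u : ℕ → ℝ := fun a => a * D a with hu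
  -- the empirical measures of `u`
  have hbc : ∀ f : ℝ → ℝ, Continuous f → (∃ K : ℝ, ∀ x, |f x| ≤ K) →
      Tendsto (fun N : ℕ => (∑ a ∈ Icc 1 N, f (u a)) / N) atTop (𝓝 (∫ x, f x ∂(ν : Measure ℝ))) := by
    rintro f hf ⟨K, hK⟩
    have h1 := emp_bc hν hf hK
    have hK0 : 0 ≤ K := (abs_nonneg _).trans (hK 0)
    have h2 : Tendsto (fun N : ℕ => (∑ a ∈ Icc 1 N, f (u a)) / N - (∑ a ∈ Icc 1 N, f (wG D a)) / N) atTop (𝓝 0) := by
      have h3 := bad_zero.const_mul (2 * K)
      rw [mul_zero] at h3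
      apply squeeze_zero_norm _ h3
      intro N
      rw [← sub_div, ← sum_sub_distrib, Real.norm_eq_abs, abs_div, Nat.abs_cast, mul_div_assoc']
      apply div_le_div_of_nonneg_right _ (Nat.cast_nonneg _)
      refine (abs_sum_le_sum_abs _ _).trans ?_
      unfold cnt
      rw [card_filter]
      push_cast
      rw [mul_sum]
      apply sum_le_sum
      intro a _
      by_cases ha : a ∈ Gs
      · rw [wG_of ha]
        simp [hu, ha]
      · rw [if_pos ha, mul_one]
        have h4 := hK (u a)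
        have h5 := hK (wG D a)
        have h6 := abs_sub (f (u a)) (f (wG D a))
        linarith
    have h7 := h2.add h1
    rw [zero_add] at h7
    refine h7.congr fun N => ?_
    ring
  have hemp : Tendsto (emp u) atTop (𝓝 ν) := by
    rw [ProbabilityMeasure.tendsto_iff_forall_integral_tendsto]
    intro f
    have h1 := avg_shift (hbc f f.continuous ⟨‖f‖, fun x => f.norm_coe_le_norm x⟩)
    refine h1.congr fun N => ?_
    change _ = ∫ x, f x ∂(empM u N)
    rw [empM_integral, smul_eq_mul]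
  -- values of `u`
  have hu3 : ∀ a : ℕ, 0 < a → 3 ∣ a → u a = 0 := by
    intro a ha h3
    simp only [hu]
    rw [hD.three ha h3, mul_zero]
  have hun3 : ∀ a : ℕ, 0 < a → ¬ 3 ∣ a → c ≤ u a := fun a ha h3 => hlow a ha h3
  -- an open set of measure zero
  have hopen : IsOpen (Set.Iio c \ {(0 : ℝ)}) := isOpen_Iio.sdiff isClosed_singleton
  have hnull : (ν : Measure ℝ) (Set.Iio c \ {0}) = 0 := by
    have h1 := ProbabilityMeasure.le_liminf_measure_open_of_tendsto hemp hopen
    have h2 : ∀ N, (emp u N : Measure ℝ) (Set.Iio c \ {0}) = 0 := by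
      intro N
      change empM u N (Set.Iio c \ {0}) = 0
      unfold empM
      rw [Measure.smul_apply, Measure.finsetSum_apply, smul_eq_mul]
      rw [sum_eq_zero, mul_zero]
      intro a ha
      rw [mem_Icc] at ha
      rw [Measure.dirac_apply' _ hopen.measurableSet, Set.indicator_of_notMem]
      rintro ⟨h3, h4⟩
      by_cases h5 : 3 ∣ a
      · exact h4 (hu3 a ha.1 h5)
      · have := hun3 a ha.1 h5
        have h3' : u a < c := h3
        linarith
    simp only [h2, liminf_const] at h1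
    exact nonpos_iff_eq_zero.1 h1
  have hae0 : ∀ᵐ x ∂(ν : Measure ℝ), x ∉ Set.Iio c \ {(0 : ℝ)} := measure_eq_zero_iff_ae_notMem.1 hnull
  -- the atom
  have hatom : (ν : Measure ℝ) {0} = 1 / 3 := by
    set f : ℝ → ℝ := fun x => max 0 (1 - |x| / c) with hf
    have hfc : Continuous f := by
      simp only [hf]
      fun_prop
    have h1 := hbc f hfc ⟨1, fun x => by
      have h2 : 0 ≤ |x| / c := by positivity
      rw [abs_of_nonneg (le_max_left _ _)]
      exact max_le zero_le_one (by linarith)⟩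
    have h2 := mean_periodic (F := fun i => if i % 3 = 0 then (1 : ℝ) else 0) (q := 3) (by norm_num) (fun n => by
      simp)
    have h3 : (∑ c ∈ range 3, (if c % 3 = 0 then (1 : ℝ) else 0)) / ((3 : ℕ) : ℝ) = 1 / 3 := by
      rw [sum_range_succ, sum_range_succ, sum_range_succ, sum_range_zero]
      norm_num
    rw [h3] at h2
    have h4 : ∀ N : ℕ, ∑ a ∈ Icc 1 N, f (u a) = ∑ a ∈ Icc 1 N, (if a % 3 = 0 then (1 : ℝ) else 0) := by
      intro N
      apply sum_congr rfl
      intro a ha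
      rw [mem_Icc] at ha
      simp only [hf]
      by_cases h5 : a % 3 = 0
      · rw [if_pos h5, hu3 a ha.1 (by omega)]
        simp
      · rw [if_neg h5]
        have h6 := hun3 a ha.1 (by omega)
        rw [abs_of_nonneg (by linarith)]
        apply max_eq_left
        have : 1 ≤ u a / c := by rw [le_div_iff₀ hc]; linarith
        linarith
    simp only [h4] at h1
    have h5 := tendsto_nhds_unique h1 h2
    have h6 : ∫ x, f x ∂(ν : Measure ℝ) = ∫ x, Set.indicator {(0 : ℝ)} (fun _ => (1 : ℝ)) x ∂(ν : Measure ℝ) := by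
      apply integral_congr_ae
      filter_upwards [hae0] with x hx
      by_cases h7 : x = 0
      · subst h7
        simp [hf]
      · rw [Set.indicator_of_notMem (by simpa using h7)]
        have h8 : c ≤ x := by
          by_contra h9
          push Not at h9
          exact hx ⟨h9, h7⟩
        simp only [hf]
        rw [abs_of_nonneg (by linarith)]
        apply max_eq_left
        have : 1 ≤ x / c := by rw [le_div_iff₀ hc]; linarith
        linarith
    rw [h6, integral_indicator_const (1 : ℝ) (measurableSet_singleton 0), smul_eq_mul, mul_one] at h5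
    have h9 : (ν : Measure ℝ) {0} = ENNReal.ofReal ((ν : Measure ℝ).real {0}) := by
      rw [Measure.real, ENNReal.ofReal_toReal (measure_ne_top _ _)]
    rw [h9, h5, ENNReal.ofReal_div_of_pos (by norm_num)]
    simp
  -- the mean
  have hκ0 : 0 < 2 / Real.log (4 / 3) := by
    have hc0 : 0 < Real.log (4 / 3) := Real.log_pos (by norm_num)
    positivity
  have hmaxlip : ∀ x y : ℝ, |max x 0 - max y 0| ≤ 1 * |x - y| := fun x y =>
    (abs_max_sub_max_le_max _ _ _ _).trans (by
      rw [sub_self, abs_zero, one_mul]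
      exact max_le le_rfl (abs_nonneg _))
  have hmean : ∫⁻ x, ENNReal.ofReal (max x 0) ∂(ν : Measure ℝ) = ENNReal.ofReal (2 / Real.log (4 / 3)) := by
    apply hLP.lint hν zero_le_one (fun x => le_max_right _ _) hmaxlip
    intro m hm
    have h1 : Mm gk (fun x => max x 0) m = 2 / Real.log (4 / 3) := by
      unfold Mm
      have h2 : ∀ c ∈ range (3 ^ m), max (gk m c) 0 = gk m c := fun c _ => max_eq_left (gk_nonneg m c)
      rw [sum_congr rfl h2, gk_sum]
      push_cast
      field_simp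
    rw [h1, sub_self, abs_zero]
    have := hLP.C0
    positivity
  have hnn : ∀ᵐ x ∂(ν : Measure ℝ), 0 ≤ x := by
    filter_upwards [hae0] with x hx
    by_contra hcon
    push Not at hcon
    exact hx ⟨lt_trans hcon hc, by simpa using hcon.ne⟩
  have hmean2 : ∫⁻ x, ENNReal.ofReal x ∂(ν : Measure ℝ) = ENNReal.ofReal (2 / Real.log (4 / 3)) := by
    rw [← hmean]
    apply lintegral_congr_ae
    filter_upwards [hnn] with x hx
    rw [max_eq_left hx]
  have hint : Integrable (fun x : ℝ => x) (ν : Measure ℝ) := by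
    refine ⟨measurable_id.aestronglyMeasurable, ?_⟩
    rw [hasFiniteIntegral_iff_ofReal hnn, hmean2]
    exact ENNReal.ofReal_lt_top
  refine ⟨ν, inferInstance, hbc, hatom, ⟨c, hc, hnull⟩, hint, ?_, ?_⟩
  · rw [integral_eq_lintegral_of_nonneg_ae hnn measurable_id.aestronglyMeasurable]
    rw [hmean2, ENNReal.toReal_ofReal hκ0.le]
  · -- the second moment
    have hs : ∀ R : ℝ, ∃ I : ℝ, 0 < R → ((∀ m : ℕ, 1 ≤ m → |Mm gk (phi R) m - I| ≤ (3 * (2 * R) * C + 1) / m) ∧
        ∀ α β : ℕ, 1 ≤ α → α ≤ 2 → β ≤ 1 →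
        Tendsto (fun N : ℕ => (∑ i ∈ Icc 1 N, phi R (wG D (α * i + β))) / N) atTop (𝓝 I)) := by
      intro R
      by_cases hR : 0 < R
      · obtain ⟨I, h1, h2⟩ := hLP.exists_I (f := phi R) (L := 2 * R) (by positivity) (phi_lip hR)
        exact ⟨I, fun _ => ⟨h1, h2⟩⟩
      · exact ⟨0, fun h => absurd h hR⟩
    choose s hs using hs
    have hSQ : SQ D s := fun R hR α β h1 h2 h3 => (hs R hR).2 α β h1 h2 h3
    apply ENNReal.eq_top_of_forall_nnreal_le
    intro K
    obtain ⟨R, hR, hK⟩ := s_unbounded hD hc hlow hSQ (K + 1)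
    have h1 := hLP.lint hν (by positivity : 0 ≤ 2 * R) (phi_nonneg hR) (phi_lip hR) (hs R hR).1
    have h2 : ENNReal.ofReal (s R) ≤ ∫⁻ x, ENNReal.ofReal (x ^ 2) ∂(ν : Measure ℝ) := by
      rw [← h1]
      apply lintegral_mono
      intro x
      exact ENNReal.ofReal_le_ofReal (phi_le_sq hR x)
    refine le_trans ?_ h2
    rw [← ENNReal.ofReal_coe_nnreal]
    apply ENNReal.ofReal_le_ofReal
    linarith

end Pool.Agent.V11311.PL
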