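import Pool.Agent.V11311.PD.P16
import Pool.Agent.W38.UPDb

/-! The law of `a D(a)`, part A: properties of the densities. -/

set_option autoImplicit false

namespace Pool.Agent.V11311.PL

open Finset Filter Topology Pool.Agent.V11311.PD

open Pool.Agent.Helper894.Collatz (T od)

open Pool.Agent.H377R2 (iter_pos)

open scoped Classical in
/-- number of the `n ≤ N` whose trajectory meets `a` -/
noncomputable def pc (a N : ℕ) : ℕ := ((Icc 1 N).filter fun n => Vis n a).card

theorem pc_eq (a N : ℕ) : (pc a N : ℝ) = Pool.Agent.H499R2.ND.G (Pr a) ((N : ℝ) + 1) := by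
  classical
  unfold pc Pool.Agent.H499R2.ND.G
  have h : Pool.Agent.H499R2.ND.pos (Pr a) ((N : ℝ) + 1)
      = ((Icc 1 N).filter fun n => Vis n a).image (fun n : ℕ => (n : ℤ)) := by
    ext z
    rw [Pool.Agent.H499R2.ND.mem_pos, mem_image]
    constructor
    · rintro ⟨⟨h1, h2⟩, h3⟩
      obtain ⟨n, rfl⟩ := Int.eq_ofNat_of_zero_le (by omega : 0 ≤ z)
      refine ⟨n, ?_, rfl⟩
      rw [mem_filter, mem_Icc]
      refine ⟨⟨by omega, ?_⟩, (Pr_nat n a).1 h3⟩
      have h4 : (n : ℝ) < N + 1 := by exact_mod_cast h2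
      have h5 : n < N + 1 := by exact_mod_cast h4
      omega
    · rintro ⟨n, hn, rfl⟩
      rw [mem_filter, mem_Icc] at hn
      refine ⟨⟨by omega, ?_⟩, (Pr_nat n a).2 hn.2⟩
      have : n < N + 1 := by omega
      exact_mod_cast this
  rw [h, card_image_of_injective _ Nat.cast_injective]

/-- `D` is the density of the predecessors -/
def IsD (D : ℕ → ℝ) : Prop := ∀ a : ℕ, Tendsto (fun X : ℝ => Pool.Agent.H499R2.ND.G (Pr a) X / X) atTop (𝓝 (D a))

theorem IsD.lim {D : ℕ → ℝ} (h : IsD D) (a : ℕ) : Tendsto (fun N : ℕ => (pc a N : ℝ) / N) atTop (𝓝 (D a)) := by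
  have h1 := Pool.Agent.H499R2.ND.nat_limit (h a)
  refine h1.congr fun N => ?_
  rw [pc_eq]

theorem IsD.nonneg {D : ℕ → ℝ} (h : IsD D) (a : ℕ) : 0 ≤ D a :=
  ge_of_tendsto' (h.lim a) fun N => by positivity

theorem pc_double (a N : ℕ) : pc (2 * a) N ≤ pc a N := by
  classical
  unfold pc
  apply card_le_card
  intro n hn
  rw [mem_filter] at hn ⊢
  obtain ⟨h1, j, hj⟩ := hn
  refine ⟨h1, j + 1, ?_⟩
  rw [Function.iterate_succ_apply', hj]
  unfold T
  rw [if_pos (by omega)]
  omega

theorem T_two (a : ℕ) : T (2 * a) = a := by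
  unfold T
  rw [if_pos (by omega)]
  omega

theorem T_odd (i : ℕ) : T (2 * i + 1) = 3 * i + 2 := by
  unfold T
  rw [if_neg (by omega)]
  omega

theorem pc_split {a b : ℕ} (hb : b % 2 = 1) (hab : T b = a) (hper : ∀ j : ℕ, 0 < j → T^[j] a ≠ a) (N : ℕ) :
    pc (2 * a) N + pc b N ≤ pc a N := by
  classical
  unfold pc
  rw [← card_union_of_disjoint]
  · apply card_le_card
    intro n hn
    rw [mem_union, mem_filter, mem_filter] at hn
    rw [mem_filter]
    rcases hn with ⟨h1, j, hj⟩ | ⟨h1, j, hj⟩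
    · exact ⟨h1, j + 1, by rw [Function.iterate_succ_apply', hj, T_two]⟩
    · exact ⟨h1, j + 1, by rw [Function.iterate_succ_apply', hj, hab]⟩
  · rw [Finset.disjoint_left]
    intro n hn hn'
    rw [mem_filter] at hn hn'
    obtain ⟨_, i, hi⟩ := hn
    obtain ⟨_, j, hj⟩ := hn'
    rcases lt_trichotomy i j with h | h | h
    · apply hper (j - i) (by omega)
      have h1 : T^[i + 1] n = a := by rw [Function.iterate_succ_apply', hi, T_two]
      have h2 : T^[j + 1] n = a := by rw [Function.iterate_succ_apply', hj, hab]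
      calc T^[j - i] a = T^[j - i] (T^[i + 1] n) := by rw [h1]
        _ = T^[j + 1] n := by rw [← Function.iterate_add_apply, show j - i + (i + 1) = j + 1 by omega]
        _ = a := h2
    · subst h
      rw [hi] at hj
      omega
    · apply hper (i - j) (by omega)
      have h1 : T^[i + 1] n = a := by rw [Function.iterate_succ_apply', hi, T_two]
      have h2 : T^[j + 1] n = a := by rw [Function.iterate_succ_apply', hj, hab]
      calc T^[i - j] a = T^[i - j] (T^[j + 1] n) := by rw [h2]
        _ = T^[i + 1] n := by rw [← Function.iterate_add_apply, show i - j + (j + 1) = i + 1 by omega]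
        _ = a := h1

theorem IsD.double {D : ℕ → ℝ} (h : IsD D) (a : ℕ) : D (2 * a) ≤ D a := by
  apply le_of_tendsto_of_tendsto' (h.lim (2 * a)) (h.lim a)
  intro N
  apply div_le_div_of_nonneg_right _ (Nat.cast_nonneg _)
  exact_mod_cast pc_double a N

theorem IsD.split {D : ℕ → ℝ} (h : IsD D) {a b : ℕ} (hb : b % 2 = 1) (hab : T b = a)
    (hper : ∀ j : ℕ, 0 < j → T^[j] a ≠ a) : D (2 * a) + D b ≤ D a := by
  apply le_of_tendsto_of_tendsto' ((h.lim (2 * a)).add (h.lim b)) (h.lim a)
  intro N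
  rw [← add_div]
  apply div_le_div_of_nonneg_right _ (Nat.cast_nonneg _)
  exact_mod_cast pc_split hb hab hper N

theorem Gs_aper {a : ℕ} (ha : a ∈ Gs) (h6 : 6 ≤ a) : ∀ j : ℕ, 0 < j → T^[j] a ≠ a := by
  intro j hj
  have h6R : (6 : ℝ) ≤ a := by exact_mod_cast h6
  exact Gd_aper (y := 3 / 4 * a) (by linarith) (Gs_sub (by linarith) (by linarith) ha) hj

/-- predecessors of a multiple of `3` -/
theorem vis_three {a : ℕ} (h3 : 3 ∣ a) : ∀ j n : ℕ, T^[j] n = a → n = 2 ^ j * a := by
  intro j
  induction j with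
  | zero => intro n h; simpa using h
  | succ j ih =>
    intro n h
    rw [Function.iterate_succ_apply] at h
    have h1 := ih _ h
    have h2 : 3 ∣ T n := by rw [h1]; exact h3.mul_left _
    have h3 : n % 2 = 0 := by
      by_contra hcon
      unfold T at h2
      rw [if_neg hcon] at h2
      omega
    have h4 : T n = n / 2 := by unfold T; rw [if_pos h3]
    rw [h4] at h1
    rw [pow_succ, mul_assoc, mul_comm 2 a, ← mul_assoc, ← h1]
    omega

theorem IsD.three {D : ℕ → ℝ} (h : IsD D) {a : ℕ} (ha : 0 < a) (h3 : 3 ∣ a) : D a = 0 := by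
  classical
  apply le_antisymm _ (h.nonneg a)
  have hlog : Tendsto (fun N : ℕ => (2 * Real.log N + 1) / (N : ℝ)) atTop (𝓝 0) := by
    have h1 : Tendsto (fun x : ℝ => Real.log x / x) atTop (𝓝 0) := by
      have := Real.isLittleO_log_id_atTop.tendsto_div_nhds_zero
      exact this
    have h2 := (h1.comp tendsto_natCast_atTop_atTop).const_mul 2
    have h3 := h2.add (tendsto_one_div_atTop_nhds_zero_nat (𝕜 := ℝ))
    rw [mul_zero, add_zero] at h3
    refine h3.congr fun N => ?_
    simp only [Function.comp]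
    ring
  apply le_of_tendsto_of_tendsto (h.lim a) hlog
  filter_upwards [eventually_ge_atTop 1] with N hN
  apply div_le_div_of_nonneg_right _ (Nat.cast_nonneg _)
  have hsub : ((Icc 1 N).filter fun n => Vis n a) ⊆ (range (Nat.log 2 N + 1)).image (fun k => 2 ^ k * a) := by
    intro n hn
    rw [mem_filter, mem_Icc] at hn
    obtain ⟨⟨h1, h2⟩, j, hj⟩ := hn
    have h4 := vis_three h3 j n hj
    rw [mem_image]
    refine ⟨j, ?_, h4.symm⟩
    rw [mem_range, Nat.lt_succ_iff]
    apply Nat.le_log_of_pow_le (by norm_num)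
    calc 2 ^ j ≤ 2 ^ j * a := Nat.le_mul_of_pos_right _ ha
      _ ≤ N := by rw [← h4]; exact h2
  have h1 : pc a N ≤ Nat.log 2 N + 1 := by
    unfold pc
    refine (card_le_card hsub).trans (card_image_le.trans ?_)
    rw [card_range]
  have h2 : (pc a N : ℝ) ≤ Nat.log 2 N + 1 := by exact_mod_cast h1
  have h4 : (2 : ℝ) ^ Nat.log 2 N ≤ N := by
    exact_mod_cast Nat.pow_log_le_self 2 (by omega)
  have h5 := Real.log_le_log (by positivity) h4
  rw [Real.log_pow] at h5
  have h6 := Real.log_two_gt_d9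
  have h7 : (0 : ℝ) ≤ Nat.log 2 N := Nat.cast_nonneg _
  nlinarith

theorem TK_Td : Pool.Agent.H366R2.KGen.TK 1 = Pool.Agent.H499R2.ND.Td 1 := rfl

theorem D_lower : ∃ c : ℝ, 0 < c ∧ ∀ D : ℕ → ℝ, IsD D → ∀ a : ℕ, 0 < a → ¬ 3 ∣ a → c ≤ a * D a := by
  classical
  obtain ⟨c, C, hc, hC, h⟩ := Pool.Agent.W38.UPD.main
  refine ⟨c, hc, fun D hD a ha ha3 => ?_⟩
  have haR : (0 : ℝ) < a := by exact_mod_cast ha
  have h1 : c / a ≤ D a := by
    apply ge_of_tendsto (hD.lim a)
    filter_upwards [eventually_ge_atTop a] with N hN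
    have hN0 : (0 : ℝ) < N := by
      have : 0 < N := lt_of_lt_of_le ha hN
      exact_mod_cast this
    rw [le_div_iff₀ hN0]
    obtain ⟨S, hS, hcard⟩ := h a (by exact_mod_cast ha) (by omega) N (by exact_mod_cast hN)
    rw [Int.cast_natCast] at hcard
    have hcard2 : S.card ≤ pc a N := by
      have hpos : ∀ z ∈ S, 0 < z := by
        intro z hz
        have := (hS z hz).1
        have : (0 : ℝ) < z := by linarith
        exact_mod_cast this
      have h2 : (S.image Int.toNat).card = S.card := by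
        apply card_image_of_injOn
        intro x hx y hy hxy
        have := hpos x hx
        have := hpos y hy
        omega
      rw [← h2]
      unfold pc
      apply card_le_card
      intro n hn
      rw [mem_image] at hn
      obtain ⟨z, hz, rfl⟩ := hn
      have hz0 := hpos z hz
      obtain ⟨h3, h4, j, _, h5⟩ := hS z hz
      have hcast : ((z.toNat : ℕ) : ℤ) = z := Int.toNat_of_nonneg hz0.le
      rw [mem_filter, mem_Icc]
      have h6 : z ≤ N := by exact_mod_cast h4
      refine ⟨⟨by omega, by omega⟩, j, ?_⟩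
      have h7 := Td_iter_nat j z.toNat
      rw [hcast, ← TK_Td, h5] at h7
      exact_mod_cast h7.symm
    calc c / a * N = c * N / a := by ring
      _ ≤ S.card := hcard
      _ ≤ pc a N := by exact_mod_cast hcard2
  rw [div_le_iff₀ haR] at h1
  linarith

end Pool.Agent.V11311.PL
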