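import Pool.Agent.V11311.PL.A

/-! The law of `a D(a)`, part B: limits in mean of periodic functions. -/

set_option autoImplicit false

namespace Pool.Agent.V11311.PL

open Finset Filter Topology Pool.Agent.V11311.PD

/-! ### periodic functions -/

theorem psum_step {F : ℕ → ℝ} {q : ℕ} (hq : 0 < q) (hF : ∀ n, F (n + q) = F n) (N : ℕ) :
    ∑ i ∈ Icc 1 (N + q), F i = ∑ i ∈ Icc 1 N, F i + ∑ c ∈ range q, F c := by
  induction N with
  | zero =>
    rw [zero_add]
    have h1 : ∑ i ∈ Icc 1 q, F i = ∑ i ∈ range q, F (i + 1) := by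
      rw [range_eq_Ico, sum_Ico_add' F 0 q 1]
      rfl
    have h2 : ∑ i ∈ range q, F (i + 1) = ∑ i ∈ range (q + 1), F i - F 0 := by
      rw [sum_range_succ' F q]; ring
    rw [h1, h2, sum_range_succ]
    have := hF 0
    rw [zero_add] at this
    rw [this]
    simp
  | succ N ih =>
    rw [show N + 1 + q = N + q + 1 by ring, sum_Icc_succ_top (by omega), sum_Icc_succ_top (by omega), ih,
      show N + q + 1 = N + 1 + q by ring, hF]
    ring

theorem mean_periodic {F : ℕ → ℝ} {q : ℕ} (hq : 0 < q) (hF : ∀ n, F (n + q) = F n) :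
    Tendsto (fun N : ℕ => (∑ i ∈ Icc 1 N, F i) / N) atTop (𝓝 ((∑ c ∈ range q, F c) / q)) := by
  set S := ∑ c ∈ range q, F c with hS
  have hqR : (0 : ℝ) < q := by exact_mod_cast hq
  set R : ℕ → ℝ := fun N => ∑ i ∈ Icc 1 N, F i - N / q * S with hR
  have hper : Function.Periodic R q := by
    intro N
    simp only [hR]
    rw [psum_step hq hF]
    push_cast
    field_simp
    ring
  set M := ∑ c ∈ range q, |R c| with hM
  have hbd : ∀ N, |R N| ≤ M := by
    intro N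
    have h1 : R (N % q) = R N := hper.map_mod_nat N
    rw [← h1]
    exact single_le_sum (f := fun c => |R c|) (fun c _ => abs_nonneg _) (mem_range.2 (Nat.mod_lt N hq))
  have h1 : Tendsto (fun N : ℕ => R N / N) atTop (𝓝 0) := by
    apply squeeze_zero_norm (a := fun N : ℕ => M * (1 / (N : ℝ)))
    · intro N
      rw [Real.norm_eq_abs, abs_div, Nat.abs_cast, div_eq_mul_one_div]
      exact mul_le_mul_of_nonneg_right (hbd N) (by positivity)
    · have := (tendsto_one_div_atTop_nhds_zero_nat (𝕜 := ℝ)).const_mul M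
      rwa [mul_zero] at this
  have h2 := h1.add_const (S / q)
  rw [zero_add] at h2
  refine h2.congr' ?_
  filter_upwards [eventually_gt_atTop 0] with N hN
  have hN0 : (N : ℝ) ≠ 0 := by exact_mod_cast hN.ne'
  simp only [hR]
  field_simp
  ring

theorem sum_affine {F : ℕ → ℝ} {q α : ℕ} (hq : 0 < q) (hF : ∀ n, F (n + q) = F n) (hα : Nat.Coprime α q) (β : ℕ) :
    ∑ c ∈ range q, F (α * c + β) = ∑ c ∈ range q, F c := by
  have hper : Function.Periodic F q := hF
  have h1 : ∀ c ∈ range q, F (α * c + β) = F ((α * c + β) % q) := fun c _ => (hper.map_mod_nat _).symm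
  rw [sum_congr rfl h1]
  have hinj : Set.InjOn (fun c => (α * c + β) % q) (range q : Set ℕ) := by
    intro c hc c' hc' h
    rw [mem_coe, mem_range] at hc hc'
    have h2 : α * c + β ≡ α * c' + β [MOD q] := h
    have h3 : α * c ≡ α * c' [MOD q] := Nat.ModEq.add_right_cancel' β h2
    have h4 : c ≡ c' [MOD q] := Nat.ModEq.cancel_left_of_coprime (by rwa [Nat.gcd_comm]) h3
    have h5 : c % q = c' % q := h4
    rwa [Nat.mod_eq_of_lt hc, Nat.mod_eq_of_lt hc'] at h5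
  have himg : (range q).image (fun c => (α * c + β) % q) = range q := by
    apply eq_of_subset_of_card_le
    · intro c hc
      rw [mem_image] at hc
      obtain ⟨c', _, rfl⟩ := hc
      exact mem_range.2 (Nat.mod_lt _ hq)
    · rw [card_image_of_injOn hinj]
  rw [← sum_image (f := F) hinj, himg]

theorem mean_affine {F : ℕ → ℝ} {q α : ℕ} (hq : 0 < q) (hF : ∀ n, F (n + q) = F n) (hα : Nat.Coprime α q) (β : ℕ) :
    Tendsto (fun N : ℕ => (∑ i ∈ Icc 1 N, F (α * i + β)) / N) atTop (𝓝 ((∑ c ∈ range q, F c) / q)) := by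
  rw [← sum_affine hq hF hα β]
  apply mean_periodic hq (F := fun i => F (α * i + β))
  intro n
  have hper : Function.Periodic F q := hF
  have h2 : α * (n + q) + β = (α * n + β) + α * q := by ring
  rw [h2]
  exact hper.nat_mul α (α * n + β)

/-- functions which are limits in mean of functions periodic modulo `3 ^ m` -/
structure LP (w : ℕ → ℝ) (g : ℕ → ℕ → ℝ) (C : ℝ) : Prop where
  C0 : 0 < C
  w0 : ∀ a, 0 ≤ w a
  g0 : ∀ m a, 0 ≤ g m a
  per : ∀ m a, g m (a + 3 ^ m) = g m a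
  app : ∀ m : ℕ, 1 ≤ m → ∀ᶠ N : ℕ in atTop, ∑ a ∈ Icc 1 N, |w a - g m a| ≤ C / m * N

theorem sum_affine_le {F : ℕ → ℝ} (hF : ∀ a, 0 ≤ F a) {α β : ℕ} (hα : 1 ≤ α) (hα2 : α ≤ 2) (hβ : β ≤ 1) (N : ℕ) :
    ∑ i ∈ Icc 1 N, F (α * i + β) ≤ ∑ a ∈ Icc 1 (2 * N + 1), F a := by
  have hinj : Set.InjOn (fun i => α * i + β) (Icc 1 N : Set ℕ) := by
    intro i _ j _ h
    simp only at h
    have : α * i = α * j := by omega
    exact Nat.eq_of_mul_eq_mul_left (by omega) this
  rw [← sum_image (f := F) hinj]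
  apply sum_le_sum_of_subset_of_nonneg
  · intro a ha
    rw [mem_image] at ha
    obtain ⟨i, hi, rfl⟩ := ha
    rw [mem_Icc] at hi ⊢
    have h1 : α * i ≤ 2 * N := Nat.mul_le_mul hα2 hi.2
    have h2 : 1 ≤ α * i := Nat.mul_pos (by omega) (by omega)
    omega
  · intro a _ _; exact hF a

theorem LP.app2 {w : ℕ → ℝ} {g : ℕ → ℕ → ℝ} {C : ℝ} (h : LP w g C) {m : ℕ} (hm : 1 ≤ m) {α β : ℕ} (hα : 1 ≤ α)
    (hα2 : α ≤ 2) (hβ : β ≤ 1) : ∀ᶠ N : ℕ in atTop,
    ∑ i ∈ Icc 1 N, |w (α * i + β) - g m (α * i + β)| ≤ 3 * C / m * N := by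
  have h1 : Tendsto (fun N : ℕ => 2 * N + 1) atTop atTop := by
    apply tendsto_atTop_mono (f := fun N : ℕ => N) (fun N => by omega) tendsto_id
  filter_upwards [h1.eventually (h.app m hm), eventually_ge_atTop 1] with N h2 h3
  have h4 := sum_affine_le (F := fun a => |w a - g m a|) (fun a => abs_nonneg _) hα hα2 hβ N
  refine (h4.trans h2).trans ?_
  have hm0 : (0 : ℝ) < m := by exact_mod_cast hm
  have hN : (1 : ℝ) ≤ N := by exact_mod_cast h3
  have hC := h.C0
  push_cast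
  have h5 : C / m * (2 * (N : ℝ) + 1) ≤ C / m * (3 * N) := mul_le_mul_of_nonneg_left (by linarith) (by positivity)
  calc C / m * (2 * (N : ℝ) + 1) ≤ C / m * (3 * N) := h5
    _ = 3 * C / m * N := by ring

/-- mean over a period -/
noncomputable def Mm (g : ℕ → ℕ → ℝ) (f : ℝ → ℝ) (m : ℕ) : ℝ := (∑ c ∈ range (3 ^ m), f (g m c)) / (3 ^ m : ℕ)

/-- averages are near to the mean over a period -/
theorem LP.near {w : ℕ → ℝ} {g : ℕ → ℕ → ℝ} {C : ℝ} (h : LP w g C) {f : ℝ → ℝ} {L : ℝ} (hL : 0 ≤ L)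
    (hf : ∀ x y, |f x - f y| ≤ L * |x - y|) {m : ℕ} (hm : 1 ≤ m) {α β : ℕ} (hα : 1 ≤ α)
    (hα2 : α ≤ 2) (hβ : β ≤ 1) : ∀ᶠ N : ℕ in atTop,
    |(∑ i ∈ Icc 1 N, f (w (α * i + β))) / N - Mm g f m| ≤ (3 * L * C + 1) / m := by
  have hm0 : (0 : ℝ) < m := by exact_mod_cast hm
  have hC := h.C0
  have hcop : Nat.Coprime α (3 ^ m) := by
    apply Nat.Coprime.pow_right
    interval_cases α <;> decide
  have h1 := mean_affine (F := fun a => f (g m a)) (q := 3 ^ m) (by positivity) (fun n => by rw [h.per m n]) hcop β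
  have h2 := Metric.tendsto_nhds.1 h1 (1 / m) (by positivity)
  filter_upwards [h2, h.app2 hm hα hα2 hβ, eventually_ge_atTop 1] with N h3 h4 h5
  rw [Real.dist_eq] at h3
  have hN : (0 : ℝ) < N := by
    have : 0 < N := h5
    exact_mod_cast this
  have h6 : |(∑ i ∈ Icc 1 N, f (w (α * i + β))) / N - (∑ i ∈ Icc 1 N, f (g m (α * i + β))) / N| ≤ 3 * L * C / m := by
    rw [← sub_div, ← sum_sub_distrib, abs_div, Nat.abs_cast, div_le_iff₀ hN]
    refine (abs_sum_le_sum_abs _ _).trans ?_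
    refine (sum_le_sum fun i _ => hf _ _).trans ?_
    rw [← mul_sum]
    calc L * ∑ i ∈ Icc 1 N, |w (α * i + β) - g m (α * i + β)| ≤ L * (3 * C / m * N) :=
          mul_le_mul_of_nonneg_left h4 hL
      _ = 3 * L * C / m * N := by ring
  have h7 := abs_sub_le ((∑ i ∈ Icc 1 N, f (w (α * i + β))) / N) ((∑ i ∈ Icc 1 N, f (g m (α * i + β))) / N) (Mm g f m)
  have h8 : |(∑ i ∈ Icc 1 N, f (g m (α * i + β))) / N - Mm g f m| ≤ 1 / m := h3.le
  calc |(∑ i ∈ Icc 1 N, f (w (α * i + β))) / N - Mm g f m| ≤ 3 * L * C / m + 1 / m := h7.trans (add_le_add h6 h8)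
    _ = (3 * L * C + 1) / m := by ring

/-- the limit of the averages -/
theorem LP.exists_I {w : ℕ → ℝ} {g : ℕ → ℕ → ℝ} {C : ℝ} (h : LP w g C) {f : ℝ → ℝ} {L : ℝ} (hL : 0 ≤ L)
    (hf : ∀ x y, |f x - f y| ≤ L * |x - y|) : ∃ I : ℝ, (∀ m : ℕ, 1 ≤ m → |Mm g f m - I| ≤ (3 * L * C + 1) / m) ∧
    ∀ α β : ℕ, 1 ≤ α → α ≤ 2 → β ≤ 1 →
      Tendsto (fun N : ℕ => (∑ i ∈ Icc 1 N, f (w (α * i + β))) / N) atTop (𝓝 I) := by
  have hC := h.C0
  set E := 3 * L * C + 1 with hE
  have hE0 : 0 < E := by positivity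
  have hMM : ∀ m k : ℕ, 1 ≤ m → 1 ≤ k → |Mm g f m - Mm g f k| ≤ E / m + E / k := by
    intro m k hm hk
    obtain ⟨N, h1, h2⟩ := ((h.near hL hf hm le_rfl (by norm_num : 1 ≤ 2) (Nat.zero_le 1)).and
      (h.near hL hf hk le_rfl (by norm_num : 1 ≤ 2) (Nat.zero_le 1))).exists
    rw [abs_sub_comm] at h1
    have := abs_sub_le (Mm g f m) ((∑ i ∈ Icc 1 N, f (w (1 * i + 0))) / N) (Mm g f k)
    linarith
  have hdiv : Tendsto (fun m : ℕ => E / (m : ℝ)) atTop (𝓝 0) := tendsto_const_div_atTop_nhds_zero_nat E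
  have hcau : CauchySeq (Mm g f) := by
    rw [Metric.cauchySeq_iff']
    intro ε hε
    obtain ⟨n0, hn0⟩ := (hdiv.eventually (gt_mem_nhds (half_pos hε))).exists_forall_of_atTop
    refine ⟨n0 + 1, fun n hn => ?_⟩
    rw [Real.dist_eq]
    have h1 := hMM n (n0 + 1) (by omega) (by omega)
    have h2 := hn0 n (by omega)
    have h3 := hn0 (n0 + 1) (by omega)
    linarith
  obtain ⟨I, hI⟩ := cauchySeq_tendsto_of_complete hcau
  have hMI : ∀ m : ℕ, 1 ≤ m → |Mm g f m - I| ≤ E / m := by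
    intro m hm
    have h1 : Tendsto (fun k : ℕ => |Mm g f m - Mm g f k|) atTop (𝓝 |Mm g f m - I|) := (hI.const_sub _).abs
    have h2 : Tendsto (fun k : ℕ => E / (m : ℝ) + E / (k : ℝ)) atTop (𝓝 (E / m + 0)) := hdiv.const_add _
    rw [add_zero] at h2
    apply le_of_tendsto_of_tendsto h1 h2
    filter_upwards [eventually_ge_atTop 1] with k hk
    exact hMM m k hm hk
  refine ⟨I, hMI, fun α β hα hα2 hβ => ?_⟩
  rw [Metric.tendsto_nhds]
  intro ε hε
  obtain ⟨n0, hn0⟩ := (hdiv.eventually (gt_mem_nhds (half_pos hε))).exists_forall_of_atTop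
  have hm : 1 ≤ n0 + 1 := by omega
  filter_upwards [h.near hL hf hm hα hα2 hβ] with N hN
  rw [Real.dist_eq]
  have h1 := hMI (n0 + 1) hm
  have h2 := hn0 (n0 + 1) (by omega)
  have h3 := abs_sub_le ((∑ i ∈ Icc 1 N, f (w (α * i + β))) / N) (Mm g f (n0 + 1)) I
  linarith

open scoped Classical in
/-- counting function of a property -/
noncomputable def cnt (P : ℕ → Prop) (N : ℕ) : ℝ := (((Icc 1 N).filter P).card : ℝ)

theorem cnt_nonneg (P : ℕ → Prop) (N : ℕ) : 0 ≤ cnt P N := Nat.cast_nonneg _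

open scoped Classical in
/-- `w` has small mean on sets of density zero -/
theorem LP.small {w : ℕ → ℝ} {g : ℕ → ℕ → ℝ} {C : ℝ} (h : LP w g C) (P : ℕ → Prop)
    (hP : Tendsto (fun N : ℕ => cnt P N / N) atTop (𝓝 0)) {α β : ℕ} (hα : 1 ≤ α)
    (hα2 : α ≤ 2) (hβ : β ≤ 1) :
    Tendsto (fun N : ℕ => (∑ i ∈ Icc 1 N, if P i then w (α * i + β) else 0) / N) atTop (𝓝 0) := by
  simp only [← sum_filter]
  unfold cnt at hP
  have hC := h.C0
  rw [Metric.tendsto_nhds]
  intro ε hε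
  have hdiv : Tendsto (fun m : ℕ => 3 * C / (m : ℝ)) atTop (𝓝 0) := tendsto_const_div_atTop_nhds_zero_nat _
  obtain ⟨n0, hn0⟩ := (hdiv.eventually (gt_mem_nhds (half_pos hε))).exists_forall_of_atTop
  have hm : 1 ≤ n0 + 1 := by omega
  set M := ∑ c ∈ range (3 ^ (n0 + 1)), g (n0 + 1) c with hM
  have hM0 : 0 ≤ M := sum_nonneg fun c _ => h.g0 _ _
  have hgM : ∀ a, g (n0 + 1) a ≤ M := by
    intro a
    have hper : Function.Periodic (g (n0 + 1)) (3 ^ (n0 + 1)) := h.per (n0 + 1)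
    rw [← hper.map_mod_nat a]
    exact single_le_sum (f := g (n0 + 1)) (fun c _ => h.g0 _ _) (mem_range.2 (Nat.mod_lt a (by positivity)))
  have h1 := hP.const_mul M
  rw [mul_zero] at h1
  filter_upwards [h.app2 hm hα hα2 hβ, h1.eventually (gt_mem_nhds (half_pos hε)), eventually_ge_atTop 1] with
    N h2 h3 h4
  have hN : (0 : ℝ) < N := by
    have : 0 < N := h4
    exact_mod_cast this
  have h5 : 0 ≤ ∑ i ∈ (Icc 1 N).filter P, w (α * i + β) := sum_nonneg fun i _ => h.w0 _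
  rw [Real.dist_eq, sub_zero, abs_div, Nat.abs_cast, abs_of_nonneg h5]
  have h6 : ∑ i ∈ (Icc 1 N).filter P, w (α * i + β)
      ≤ ∑ i ∈ Icc 1 N, |w (α * i + β) - g (n0 + 1) (α * i + β)| + M * ((Icc 1 N).filter P).card := by
    calc ∑ i ∈ (Icc 1 N).filter P, w (α * i + β)
        ≤ ∑ i ∈ (Icc 1 N).filter P, (|w (α * i + β) - g (n0 + 1) (α * i + β)| + M) := by
          apply sum_le_sum
          intro i _
          have := le_abs_self (w (α * i + β) - g (n0 + 1) (α * i + β))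
          have := hgM (α * i + β)
          linarith
      _ = ∑ i ∈ (Icc 1 N).filter P, |w (α * i + β) - g (n0 + 1) (α * i + β)| + M * ((Icc 1 N).filter P).card := by
          rw [sum_add_distrib, sum_const, nsmul_eq_mul]; ring
      _ ≤ _ := by
          apply add_le_add_left
          exact sum_le_sum_of_subset_of_nonneg (filter_subset _ _) fun i _ _ => abs_nonneg _
  have h7 := hn0 (n0 + 1) (by omega)
  rw [div_lt_iff₀ hN]
  have h8 : M * (((Icc 1 N).filter P).card : ℝ) < ε / 2 * N := by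
    have h9 : M * ((((Icc 1 N).filter P).card : ℝ) / N) = M * (((Icc 1 N).filter P).card : ℝ) / N := by ring
    rw [h9, div_lt_iff₀ hN] at h3
    exact h3
  have h10 : 3 * C / ((n0 + 1 : ℕ) : ℝ) * N < ε / 2 * N := mul_lt_mul_of_pos_right h7 hN
  linarith

end Pool.Agent.V11311.PL
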