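import Pool.Agent.V11311.PL.B

/-! The law of `a D(a)`, part C: truncated squares. -/

set_option autoImplicit false

namespace Pool.Agent.V11311.PL

open Finset Filter Topology Pool.Agent.V11311.PD

/-! ### the function `t ^ 2`, continued linearly beyond `R` -/

/-- `t ^ 2` on `[0, R]`, linear beyond `R`, zero for `t ≤ 0` -/
noncomputable def phi (R t : ℝ) : ℝ := (min (max t 0) R) ^ 2 + 2 * R * max (t - R) 0

theorem phi_neg {R t : ℝ} (hR : 0 < R) (h : t ≤ 0) : phi R t = 0 := by
  unfold phi
  rw [max_eq_right h, min_eq_left hR.le, max_eq_right (by linarith)]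
  ring

theorem phi_low {R t : ℝ} (h0 : 0 ≤ t) (h : t ≤ R) : phi R t = t ^ 2 := by
  unfold phi
  rw [max_eq_left h0, min_eq_left h, max_eq_right (by linarith)]
  ring

theorem phi_high {R t : ℝ} (hR : 0 < R) (h : R ≤ t) : phi R t = 2 * R * t - R ^ 2 := by
  unfold phi
  rw [max_eq_left (by linarith), min_eq_right h, max_eq_left (by linarith)]
  ring

theorem phi_mono {R x y : ℝ} (hR : 0 < R) (h : x ≤ y) : phi R x ≤ phi R y := by
  rcases le_or_gt x 0 with hx | hx
  · rw [phi_neg hR hx]
    unfold phi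
    have := le_max_right (y - R) 0
    positivity
  · rcases le_or_gt y R with hy | hy
    · rw [phi_low hx.le (by linarith), phi_low (by linarith) hy]
      nlinarith
    · rcases le_or_gt x R with hx2 | hx2
      · rw [phi_low hx.le hx2, phi_high hR hy.le]
        nlinarith
      · rw [phi_high hR hx2.le, phi_high hR hy.le]
        nlinarith

theorem phi_nonneg {R : ℝ} (hR : 0 < R) (t : ℝ) : 0 ≤ phi R t := by
  unfold phi
  have := le_max_right (t - R) 0
  positivity

theorem phi_inc {R x y : ℝ} (hR : 0 < R) (h : x ≤ y) : phi R y - phi R x ≤ 2 * R * (y - x) := by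
  rcases le_or_gt y 0 with hy | hy
  · rw [phi_neg hR hy, phi_neg hR (by linarith)]
    nlinarith
  rcases le_or_gt x 0 with hx | hx
  · rw [phi_neg hR hx]
    rcases le_or_gt y R with hy2 | hy2
    · rw [phi_low hy.le hy2]
      nlinarith
    · rw [phi_high hR hy2.le]
      nlinarith
  · rcases le_or_gt y R with hy2 | hy2
    · rw [phi_low hx.le (by linarith), phi_low (by linarith) hy2]
      nlinarith
    · rcases le_or_gt x R with hx2 | hx2
      · rw [phi_low hx.le hx2, phi_high hR hy2.le]
        nlinarith [sq_nonneg (x - R)]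
      · rw [phi_high hR hx2.le, phi_high hR hy2.le]
        nlinarith

theorem phi_lip {R : ℝ} (hR : 0 < R) (x y : ℝ) : |phi R x - phi R y| ≤ 2 * R * |x - y| := by
  rcases le_total x y with h | h
  · rw [abs_sub_comm, abs_sub_comm x y, abs_of_nonneg (sub_nonneg.2 (phi_mono hR h)), abs_of_nonneg (sub_nonneg.2 h)]
    exact phi_inc hR h
  · rw [abs_of_nonneg (sub_nonneg.2 (phi_mono hR h)), abs_of_nonneg (sub_nonneg.2 h)]
    exact phi_inc hR h

theorem phi_lin {R t : ℝ} (hR : 0 < R) (ht : 0 ≤ t) : phi R t ≤ 2 * R * t := by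
  have := phi_inc hR ht
  rw [phi_neg hR le_rfl] at this
  linarith

theorem phi_le_sq {R : ℝ} (hR : 0 < R) (t : ℝ) : phi R t ≤ t ^ 2 := by
  rcases le_or_gt t 0 with h | h
  · rw [phi_neg hR h]; positivity
  · rcases le_or_gt t R with h2 | h2
    · rw [phi_low h.le h2]
    · rw [phi_high hR h2.le]
      nlinarith [sq_nonneg (t - R)]

theorem phi_scale {R l : ℝ} (hR : 0 < R) (hl : 0 < l) (t : ℝ) : phi R (l * t) = l ^ 2 * phi (R / l) t := by
  have hRl : 0 < R / l := div_pos hR hl
  rcases le_or_gt t 0 with h | h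
  · rw [phi_neg hR (by nlinarith), phi_neg hRl h, mul_zero]
  · rcases le_or_gt t (R / l) with h2 | h2
    · have h3 : l * t ≤ R := by rw [le_div_iff₀ hl] at h2; linarith
      rw [phi_low (by positivity) h3, phi_low h.le h2]
      ring
    · have h3 : R ≤ l * t := by
        have := h2.le
        rw [div_le_iff₀ hl] at this
        linarith
      rw [phi_high hR h3, phi_high hRl h2.le]
      field_simp

theorem phi_mono_R {R R' : ℝ} (hR : 0 < R) (h : R ≤ R') (t : ℝ) : phi R t ≤ phi R' t := by
  have hR' : 0 < R' := lt_of_lt_of_le hR h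
  rcases le_or_gt t 0 with h1 | h1
  · rw [phi_neg hR h1, phi_neg hR' h1]
  · rcases le_or_gt t R' with h2 | h2
    · rw [phi_low h1.le h2]
      exact phi_le_sq hR t
    · rw [phi_high hR (by linarith), phi_high hR' h2.le]
      nlinarith

/-- superadditivity, with a gain -/
theorem phi_gain {R x y c1 c2 : ℝ} (hR : 0 < R) (h1 : 0 ≤ c1) (h2 : 0 ≤ c2) (hx : c1 ≤ x) (hy : c2 ≤ y)
    (hc : c1 + c2 ≤ R) : phi R x + phi R y + 2 * c1 * c2 ≤ phi R (x + y) := by
  rcases le_or_gt x R with hxR | hxR
  · rcases le_or_gt y R with hyR | hyR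
    · rcases le_or_gt (x + y) R with hs | hs
      · rw [phi_low (by linarith) hxR, phi_low (by linarith) hyR, phi_low (by linarith) hs]
        nlinarith [mul_nonneg (sub_nonneg.2 hx) (sub_nonneg.2 hy), mul_nonneg h1 (sub_nonneg.2 hy),
          mul_nonneg h2 (sub_nonneg.2 hx)]
      · rw [phi_low (by linarith) hxR, phi_low (by linarith) hyR, phi_high hR hs.le]
        rcases le_or_gt c1 (R - y) with hcy | hcy
        · have e1 : 0 ≤ (x - (R - y)) * (2 * R - x - (R - y)) := mul_nonneg (by linarith) (by linarith)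
          have e2 : c1 * c2 ≤ (R - y) * y := mul_le_mul hcy hy h2 (by linarith)
          nlinarith
        · have e1 : 0 ≤ (x - c1) * (2 * R - x - c1) := mul_nonneg (by linarith) (by linarith)
          have e2 : 0 ≤ (y - (R - c1)) * (R - y + c1) := mul_nonneg (by linarith) (by linarith)
          have e3 : c1 * c2 ≤ c1 * (R - c1) := mul_le_mul_of_nonneg_left (by linarith) h1
          nlinarith
    · rw [phi_low (by linarith) hxR, phi_high hR hyR.le, phi_high hR (by linarith)]
      have e1 : 0 ≤ (x - c1) * (2 * R - x - c1) := mul_nonneg (by linarith) (by linarith)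
      have e3 : c1 * (c1 + 2 * c2) ≤ c1 * (2 * R - c1) := mul_le_mul_of_nonneg_left (by linarith) h1
      nlinarith [mul_nonneg h1 h1]
  · rcases le_or_gt y R with hyR | hyR
    · rw [phi_low (by linarith) hyR, phi_high hR hxR.le, phi_high hR (by linarith)]
      have e1 : 0 ≤ (y - c2) * (2 * R - y - c2) := mul_nonneg (by linarith) (by linarith)
      have e3 : c2 * (c2 + 2 * c1) ≤ c2 * (2 * R - c2) := mul_le_mul_of_nonneg_left (by linarith) h2
      nlinarith [mul_nonneg h2 h2]
    · rw [phi_high hR hyR.le, phi_high hR hxR.le, phi_high hR (by linarith)]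
      have e1 : (c1 + c2) ^ 2 ≤ R ^ 2 := pow_le_pow_left₀ (by linarith) hc 2
      nlinarith [mul_nonneg h1 h2, mul_nonneg h1 h1, mul_nonneg h2 h2]

end Pool.Agent.V11311.PL
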