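import Pool.Agent.V11311.PL.C

/-! The law of `a D(a)`, part D: the second moment. -/

set_option autoImplicit false

namespace Pool.Agent.V11311.PL

open Finset Filter Topology Pool.Agent.V11311.PD

open Pool.Agent.Helper894.Collatz (T od)

/-- `a D(a)` on the good integers, zero elsewhere -/
noncomputable def wG (D : ℕ → ℝ) (a : ℕ) : ℝ := Gs.indicator (fun a : ℕ => (a : ℝ) * D a) a

/-- the periodic approximations -/
noncomputable def gk (m a : ℕ) : ℝ := 2 / Real.log (4 / 3) * (3 ^ m * pN (4 * m) m a)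

theorem wG_of {D : ℕ → ℝ} {a : ℕ} (h : a ∈ Gs) : wG D a = a * D a := by
  unfold wG
  rw [Set.indicator_of_mem h]

theorem wG_not {D : ℕ → ℝ} {a : ℕ} (h : a ∉ Gs) : wG D a = 0 := by
  unfold wG
  rw [Set.indicator_of_notMem h]

theorem wG_le {D : ℕ → ℝ} (hD : IsD D) (a : ℕ) : wG D a ≤ a * D a := by
  by_cases h : a ∈ Gs
  · rw [wG_of h]
  · rw [wG_not h]
    exact mul_nonneg (Nat.cast_nonneg _) (hD.nonneg a)

theorem wG_nonneg {D : ℕ → ℝ} (hD : IsD D) (a : ℕ) : 0 ≤ wG D a := by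
  by_cases h : a ∈ Gs
  · rw [wG_of h]
    exact mul_nonneg (Nat.cast_nonneg _) (hD.nonneg a)
  · rw [wG_not h]

theorem gk_nonneg (m a : ℕ) : 0 ≤ gk m a := by
  have hc0 : 0 < Real.log (4 / 3) := Real.log_pos (by norm_num)
  unfold gk pN
  positivity

theorem gk_per (m a : ℕ) : gk m (a + 3 ^ m) = gk m a := by
  unfold gk
  rw [pN_congr (4 * m) m (c := ((a + 3 ^ m : ℕ) : ℤ)) (c' := (a : ℤ))]
  push_cast
  rw [add_sub_cancel_left]

theorem gk_sum (m : ℕ) : ∑ c ∈ range (3 ^ m), gk m c = 2 / Real.log (4 / 3) * 3 ^ m := by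
  unfold gk
  rw [← mul_sum, ← mul_sum, sum_pN, mul_one]

theorem gk_le (m a : ℕ) : gk m a ≤ 2 / Real.log (4 / 3) * 3 ^ m := by
  rw [← gk_sum]
  have hper : Function.Periodic (gk m) (3 ^ m) := gk_per m
  rw [← hper.map_mod_nat a]
  exact single_le_sum (f := gk m) (fun c _ => gk_nonneg _ _) (mem_range.2 (Nat.mod_lt a (by positivity)))

theorem bad_zero : Tendsto (fun N : ℕ => cnt (fun a => a ∉ Gs) N / N) atTop (𝓝 0) := by
  classical
  have h1 := tendsto_natCast_atTop_atTop.eventually (Gs_compl 1)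
  have h2 : Tendsto (fun N : ℕ => 1 / Real.log (N : ℝ)) atTop (𝓝 0) := by
    have := (Real.tendsto_log_atTop.comp tendsto_natCast_atTop_atTop).inv_tendsto_atTop
    refine this.congr fun N => ?_
    simp
  apply squeeze_zero' (Eventually.of_forall fun N => div_nonneg (cnt_nonneg _ _) (Nat.cast_nonneg _)) _ h2
  filter_upwards [h1, eventually_ge_atTop 1] with N hN hN1
  have hN0 : (0 : ℝ) < N := by
    have : 0 < N := hN1
    exact_mod_cast this
  rw [div_le_iff₀ hN0]
  unfold cnt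
  have := hN ((Icc 1 N).filter fun a => a ∉ Gs) (fun a ha => by
    rw [mem_filter, mem_Icc] at ha
    exact ⟨⟨ha.1.1, by exact_mod_cast ha.1.2⟩, ha.2⟩)
  rw [pow_one] at this
  calc _ ≤ (N : ℝ) / Real.log N := by convert this
    _ = 1 / Real.log N * N := by ring

/-- density zero along progressions -/
theorem zero_affine (P : ℕ → Prop) (hP : Tendsto (fun N : ℕ => cnt P N / N) atTop (𝓝 0))
    (α β : ℕ) (hα : 1 ≤ α) :
    Tendsto (fun N : ℕ => cnt (fun i => P (α * i + β)) N / N) atTop (𝓝 0) := by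
  classical
  have h1 : Tendsto (fun N : ℕ => α * N + β) atTop atTop := by
    apply tendsto_atTop_mono (f := fun N : ℕ => N) (fun N => by nlinarith) tendsto_id
  have h2 := (hP.comp h1).mul_const ((α : ℝ) + β)
  rw [zero_mul] at h2
  apply squeeze_zero' (Eventually.of_forall fun N => div_nonneg (cnt_nonneg _ _) (Nat.cast_nonneg _)) _ h2
  filter_upwards [eventually_ge_atTop 1] with N hN
  have hN0 : (1 : ℝ) ≤ N := by exact_mod_cast hN
  have hαR : (1 : ℝ) ≤ α := by exact_mod_cast hα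
  have hβR : (0 : ℝ) ≤ β := Nat.cast_nonneg β
  have hcard : ((Icc 1 N).filter fun i => P (α * i + β)).card ≤ ((Icc 1 (α * N + β)).filter P).card := by
    apply card_le_card_of_injOn (fun i => α * i + β)
    · intro i hi
      have hi := mem_coe.1 hi
      rw [mem_filter, mem_Icc] at hi
      have h3 : α * i ≤ α * N := Nat.mul_le_mul_left _ hi.1.2
      have h4 : 1 ≤ α * i := Nat.mul_pos (by omega) (by omega)
      have h5 : 1 ≤ α * i + β ∧ α * i + β ≤ α * N + β := ⟨by omega, by omega⟩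
      exact mem_coe.2 (mem_filter.2 ⟨mem_Icc.2 h5, hi.2⟩)
    · intro i _ j _ h
      have h' : α * i + β = α * j + β := h
      have : α * i = α * j := by omega
      exact Nat.eq_of_mul_eq_mul_left (by omega) this
  have hcR : cnt (fun i => P (α * i + β)) N ≤ cnt P (α * N + β) := by
    unfold cnt
    exact_mod_cast hcard
  simp only [Function.comp]
  have hden : (0 : ℝ) < ((α * N + β : ℕ) : ℝ) := by
    push_cast
    nlinarith
  rw [div_mul_eq_mul_div, div_le_div_iff₀ (by linarith) hden]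
  push_cast
  have h5 : (α : ℝ) * N + β ≤ (α + β) * N := by nlinarith
  calc cnt (fun i => P (α * i + β)) N * (α * N + β)
      ≤ cnt P (α * N + β) * ((α + β) * N) := by
        apply mul_le_mul hcR h5 (by nlinarith) (cnt_nonneg _ _)
    _ = _ := by ring

theorem wG_LP {D : ℕ → ℝ} (hD : IsD D) : ∃ C : ℝ, LP (wG D) gk C := by
  classical
  obtain ⟨C0, hC0, h⟩ := asymp_L1 1
  refine ⟨C0 + 1, by positivity, wG_nonneg hD, gk_nonneg, gk_per, fun m hm => ?_⟩
  have hm0 : (0 : ℝ) < m := by exact_mod_cast hm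
  have h1 := tendsto_natCast_atTop_atTop.eventually (h D (fun a _ => Fd_lim (hD a)) m hm)
  have hK : 0 < 2 / Real.log (4 / 3) * 3 ^ m := by
    have hc0 : 0 < Real.log (4 / 3) := Real.log_pos (by norm_num)
    positivity
  set K := 2 / Real.log (4 / 3) * 3 ^ m with hKdef
  have h2 := bad_zero.eventually (ge_mem_nhds (by positivity : 0 < 1 / m / K))
  filter_upwards [h1, h2, eventually_ge_atTop 1] with N h3 h4 h5
  have hN0 : (0 : ℝ) < N := by
    have : 0 < N := h5
    exact_mod_cast this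
  have h6 := h3 ((Icc 1 N).filter fun a => a ∈ Gs) (fun a ha => by
    rw [mem_filter, mem_Icc] at ha
    exact ⟨⟨ha.1.1, by exact_mod_cast ha.1.2⟩, ha.2⟩)
  rw [pow_one] at h6
  rw [← sum_filter_add_sum_filter_not (Icc 1 N) (fun a => a ∈ Gs)]
  have h7 : ∑ a ∈ (Icc 1 N).filter (fun a => a ∈ Gs), |wG D a - gk m a| ≤ C0 / m * N := by
    refine le_trans (le_of_eq ?_) h6
    apply sum_congr rfl
    intro a ha
    rw [wG_of (mem_filter.1 ha).2]
    rfl
  have h8 : ∑ a ∈ (Icc 1 N).filter (fun a => a ∉ Gs), |wG D a - gk m a| ≤ 1 / m * N := by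
    calc ∑ a ∈ (Icc 1 N).filter (fun a => a ∉ Gs), |wG D a - gk m a|
        ≤ ∑ a ∈ (Icc 1 N).filter (fun a => a ∉ Gs), K := by
          apply sum_le_sum
          intro a ha
          rw [wG_not (mem_filter.1 ha).2, zero_sub, abs_neg, abs_of_nonneg (gk_nonneg m a)]
          exact gk_le m a
      _ = cnt (fun a => a ∉ Gs) N * K := by
          rw [sum_const, nsmul_eq_mul]
          unfold cnt
          congr!
      _ ≤ (1 / m / K * N) * K := by
          apply mul_le_mul_of_nonneg_right _ hK.le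
          rwa [div_le_iff₀ hN0] at h4
      _ = 1 / m * N := by field_simp
  calc _ ≤ C0 / m * N + 1 / m * N := add_le_add h7 h8
    _ = (C0 + 1) / m * N := by ring

/-- the limits of the averages of truncated squares -/
def SQ (D : ℕ → ℝ) (s : ℝ → ℝ) : Prop := ∀ R : ℝ, 0 < R → ∀ α β : ℕ, 1 ≤ α → α ≤ 2 → β ≤ 1 →
  Tendsto (fun N : ℕ => (∑ i ∈ Icc 1 N, phi R (wG D (α * i + β))) / N) atTop (𝓝 (s R))

/-- sampling at `3 N + 2` -/
theorem samp {F : ℕ → ℝ} {l : ℝ} (h : Tendsto (fun N : ℕ => F N / N) atTop (𝓝 l)) :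
    Tendsto (fun N : ℕ => F (3 * N + 2) / N) atTop (𝓝 (3 * l)) := by
  have h1 : Tendsto (fun N : ℕ => 3 * N + 2) atTop atTop := by
    apply tendsto_atTop_mono (f := fun N : ℕ => N) (fun N => by omega) tendsto_id
  have h2 := h.comp h1
  have h3 : Tendsto (fun N : ℕ => (3 : ℝ) + 2 * (1 / (N : ℝ))) atTop (𝓝 (3 + 2 * 0)) :=
    ((tendsto_one_div_atTop_nhds_zero_nat (𝕜 := ℝ)).const_mul 2).const_add 3
  rw [mul_zero, add_zero] at h3
  have h4 := h2.mul h3
  rw [mul_comm l 3] at h4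
  refine h4.congr' ?_
  filter_upwards [eventually_ge_atTop 1] with N hN
  have hN0 : (0 : ℝ) < N := by
    have : 0 < N := hN
    exact_mod_cast this
  simp only [Function.comp]
  push_cast
  field_simp

/-- THE KEY INEQUALITY -/
theorem key {D : ℕ → ℝ} (hD : IsD D) {c : ℝ} (hc : 0 < c) (hlow : ∀ a : ℕ, 0 < a → ¬ 3 ∣ a → c ≤ a * D a)
    {s : ℝ → ℝ} (hs : SQ D s) {R : ℝ} (hR : 2 * c ≤ R) :
    1 / 4 * s (2 * R) + 3 / 4 * s (2 * R / 3) + c ^ 2 / 6 ≤ s R := by
  classical
  have hR0 : 0 < R := by linarith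
  obtain ⟨C, hLP⟩ := wG_LP hD
  set W := wG D with hW
  have hW0 : ∀ a, 0 ≤ W a := wG_nonneg hD
  -- the bad integers
  obtain ⟨Bd, hBd⟩ : ∃ Bd : ℕ → Prop, ∀ a, Bd a ↔ ¬ (a ∈ Gs ∧ 6 ≤ a) := ⟨_, fun _ => Iff.rfl⟩
  have hBd0 : Tendsto (fun N : ℕ => cnt Bd N / N) atTop (𝓝 0) := by
    have h1 := bad_zero.add ((tendsto_one_div_atTop_nhds_zero_nat (𝕜 := ℝ)).const_mul 6)
    rw [mul_zero, add_zero] at h1
    apply squeeze_zero' (Eventually.of_forall fun N => div_nonneg (cnt_nonneg _ _) (Nat.cast_nonneg _)) _ h1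
    filter_upwards [eventually_ge_atTop 1] with N hN
    have hN0 : (0 : ℝ) < N := by
      have : 0 < N := hN
      exact_mod_cast this
    have hsub : (Icc 1 N).filter Bd ⊆ ((Icc 1 N).filter fun a => a ∉ Gs) ∪ range 6 := by
      intro a ha
      rw [mem_filter, hBd] at ha
      rw [mem_union, mem_filter, mem_range]
      by_contra hcon
      push Not at hcon
      apply ha.2
      exact ⟨hcon.1 ha.1, hcon.2⟩
    have h2 := (card_le_card hsub).trans (card_union_le _ _)
    rw [card_range] at h2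
    have h3 : cnt Bd N ≤ cnt (fun a => a ∉ Gs) N + 6 := by
      unfold cnt
      have h4 : ((Icc 1 N).filter Bd).card ≤ (((Icc 1 N).filter fun a => a ∉ Gs).card : ℝ) + 6 := by exact_mod_cast h2
      convert h4
    rw [div_add' _ _ _ hN0.ne']
    apply div_le_div_of_nonneg_right _ hN0.le
    have h4 : 6 * (1 / (N : ℝ)) * N = 6 := by field_simp
    rw [h4]
    exact h3
  obtain ⟨e1, he1⟩ : ∃ e1 : ℕ → ℝ, ∀ a, e1 a = if Bd a then R * W (2 * a + 0) else 0 := ⟨_, fun _ => rfl⟩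
  obtain ⟨e2, he2⟩ : ∃ e2 : ℕ → ℝ, ∀ i, e2 i = if Bd (3 * i + 2) then 3 * R * W (2 * i + 1) else 0 := ⟨_, fun _ => rfl⟩
  have he1l : Tendsto (fun N : ℕ => (∑ a ∈ Icc 1 N, e1 a) / N) atTop (𝓝 0) := by
    have h1 := (hLP.small Bd hBd0 (α := 2) (β := 0) (by norm_num) le_rfl (by norm_num)).const_mul R
    rw [mul_zero] at h1
    refine h1.congr fun N => ?_
    rw [mul_div_assoc', mul_sum]
    congr 1
    apply sum_congr rfl
    intro a _
    rw [he1]
    split_ifs <;> simp
  have he2l : Tendsto (fun N : ℕ => (∑ a ∈ Icc 1 N, e2 a) / N) atTop (𝓝 0) := by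
    have h1 := (hLP.small (fun i => Bd (3 * i + 2)) (zero_affine Bd hBd0 3 2 (by norm_num)) (α := 2) (β := 1)
      (by norm_num) le_rfl (by norm_num)).const_mul (3 * R)
    rw [mul_zero] at h1
    refine h1.congr fun N => ?_
    rw [mul_div_assoc', mul_sum]
    congr 1
    apply sum_congr rfl
    intro a _
    rw [he2]
    split_ifs <;> simp
  -- pointwise inequalities
  have hhalf : ∀ a, ¬ Bd a → 1 / 2 * W (2 * a) ≤ W a := by
    intro a ha
    rw [hBd, not_not] at ha
    have h1 : W (2 * a) ≤ ((2 * a : ℕ) : ℝ) * D (2 * a) := wG_le hD (2 * a)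
    have h2 : W a = a * D a := wG_of ha.1
    have h3 := hD.double a
    have h4 : (0 : ℝ) ≤ a := Nat.cast_nonneg a
    rw [h2]
    push_cast at h1
    nlinarith
  obtain ⟨ψ, hψ⟩ : ∃ ψ : ℕ → ℝ, ∀ a, ψ a = phi R (W a) + e1 a - phi R (1 / 2 * W (2 * a)) := ⟨_, fun _ => rfl⟩
  have hψ0 : ∀ a, 0 ≤ ψ a := by
    intro a
    rw [hψ, he1]
    by_cases hb : Bd a
    · rw [if_pos hb]
      have h1 := phi_nonneg hR0 (W a)
      have h2 := phi_lin hR0 (by have := hW0 (2 * a); positivity : 0 ≤ 1 / 2 * W (2 * a))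
      rw [add_zero]
      linarith
    · rw [if_neg hb]
      have := phi_mono hR0 (hhalf a hb)
      linarith
  obtain ⟨Q, hQ⟩ : ∃ Q : ℕ → Prop, ∀ i, Q i ↔ (3 ∣ i ∧ 6 * i + 4 ∈ Gs ∧ 2 * i + 1 ∈ Gs ∧ ¬ Bd (3 * i + 2)) :=
    ⟨_, fun _ => Iff.rfl⟩
  obtain ⟨γ, hγ⟩ : ∃ γ : ℝ, γ = 3 * c ^ 2 / 2 := ⟨_, rfl⟩
  have hγ0 : 0 ≤ γ := by rw [hγ]; positivity
  have hkey : ∀ i : ℕ, phi R (3 / 2 * W (2 * i + 1)) + γ * (if Q i then 1 else 0) ≤ ψ (3 * i + 2) + e2 i := by
    intro i
    rw [hψ, he1, he2]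
    have hy0 : 0 ≤ 3 / 2 * W (2 * i + 1) := by
      have := hW0 (2 * i + 1)
      positivity
    by_cases hb : Bd (3 * i + 2)
    · rw [if_pos hb, if_pos hb, if_neg (fun h => ((hQ i).1 h).2.2.2 hb)]
      have h1 := phi_nonneg hR0 (W (3 * i + 2))
      have h2 := phi_lin hR0 (by have := hW0 (2 * (3 * i + 2)); positivity : 0 ≤ 1 / 2 * W (2 * (3 * i + 2)))
      have h3 := phi_lin hR0 hy0
      rw [add_zero]
      linarith
    · rw [if_neg hb, if_neg hb]
      have hb' := hb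
      rw [hBd, not_not] at hb'
      have h1 : W (2 * (3 * i + 2)) ≤ ((2 * (3 * i + 2) : ℕ) : ℝ) * D (2 * (3 * i + 2)) := wG_le hD _
      have h2 : W (3 * i + 2) = ((3 * i + 2 : ℕ) : ℝ) * D (3 * i + 2) := wG_of hb'.1
      have h3 : W (2 * i + 1) ≤ ((2 * i + 1 : ℕ) : ℝ) * D (2 * i + 1) := wG_le hD _
      have h4 := hD.split (a := 3 * i + 2) (b := 2 * i + 1) (by omega) (T_odd i) (Gs_aper hb'.1 hb'.2)
      have h5 : 1 / 2 * W (2 * (3 * i + 2)) + 3 / 2 * W (2 * i + 1) ≤ W (3 * i + 2) := by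
        rw [h2]
        push_cast at h1 h3 ⊢
        have hi : (0 : ℝ) ≤ i := Nat.cast_nonneg i
        have hDb := hD.nonneg (2 * i + 1)
        nlinarith
      have hx0 : 0 ≤ 1 / 2 * W (2 * (3 * i + 2)) := by
        have := hW0 (2 * (3 * i + 2))
        positivity
      by_cases hq : Q i
      · rw [if_pos hq]
        obtain ⟨q1, q2, q3, _⟩ := (hQ i).1 hq
        have h6 : c ≤ W (2 * (3 * i + 2)) := by
          have : 2 * (3 * i + 2) = 6 * i + 4 := by ring
          rw [this, hW, wG_of q2]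
          exact hlow _ (by omega) (by omega)
        have h7 : c ≤ W (2 * i + 1) := by
          rw [hW, wG_of q3]
          exact hlow _ (by omega) (by omega)
        have h8 := phi_gain hR0 (c1 := c / 2) (c2 := 3 / 2 * c) (x := 1 / 2 * W (2 * (3 * i + 2)))
          (y := 3 / 2 * W (2 * i + 1)) (by linarith) (by linarith) (by linarith) (by linarith) (by linarith)
        have h9 := phi_mono hR0 h5
        have h10 : 2 * (c / 2) * (3 / 2 * c) = γ := by rw [hγ]; ring
        linarith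
      · rw [if_neg hq]
        have h8 := phi_gain hR0 (c1 := 0) (c2 := 0) le_rfl le_rfl hx0 hy0 (by linarith)
        have h9 := phi_mono hR0 h5
        linarith
  -- summed
  have hsum : ∀ N : ℕ, ∑ i ∈ Icc 1 N, phi R (3 / 2 * W (2 * i + 1)) + γ * cnt Q N
      ≤ ∑ a ∈ Icc 1 (3 * N + 2), ψ a + ∑ i ∈ Icc 1 N, e2 i := by
    intro N
    have h1 : ∑ i ∈ Icc 1 N, ψ (3 * i + 2) ≤ ∑ a ∈ Icc 1 (3 * N + 2), ψ a := by
      have hinj : Set.InjOn (fun i => 3 * i + 2) (Icc 1 N : Set ℕ) := by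
        intro i _ j _ h
        have h' : 3 * i + 2 = 3 * j + 2 := h
        omega
      rw [← sum_image (f := ψ) hinj]
      apply sum_le_sum_of_subset_of_nonneg
      · intro a ha
        rw [mem_image] at ha
        obtain ⟨i, hi, rfl⟩ := ha
        rw [mem_Icc] at hi ⊢
        omega
      · intro a _ _; exact hψ0 a
    have h2 : ∑ i ∈ Icc 1 N, phi R (3 / 2 * W (2 * i + 1)) + γ * cnt Q N
        = ∑ i ∈ Icc 1 N, (phi R (3 / 2 * W (2 * i + 1)) + γ * (if Q i then 1 else 0)) := by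
      rw [sum_add_distrib, ← mul_sum]
      unfold cnt
      rw [card_filter]
      push_cast
      rfl
    rw [h2]
    have h3 := sum_le_sum fun i (_ : i ∈ Icc 1 N) => hkey i
    rw [sum_add_distrib (f := fun i => ψ (3 * i + 2))] at h3
    linarith
  -- limits
  have lA := samp (F := fun n => ∑ a ∈ Icc 1 n, phi R (W a)) (l := s R) (by
    have := hs R hR0 1 0 le_rfl (by norm_num) (by norm_num)
    simpa only [one_mul, add_zero] using this)
  have lB := samp (F := fun n => ∑ a ∈ Icc 1 n, phi R (1 / 2 * W (2 * a))) (l := 1 / 4 * s (2 * R)) (by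
    have := (hs (2 * R) (by linarith) 2 0 (by norm_num) le_rfl (by norm_num)).const_mul (1 / 4)
    refine this.congr fun N => ?_
    rw [mul_div_assoc', mul_sum]
    congr 1
    apply sum_congr rfl
    intro a _
    rw [phi_scale hR0 (by norm_num : (0 : ℝ) < 1 / 2), show R / (1 / 2) = 2 * R by ring]
    norm_num [hW])
  have lE := samp he1l
  have lψ : Tendsto (fun N : ℕ => (∑ a ∈ Icc 1 (3 * N + 2), ψ a) / N) atTop (𝓝 (3 * s R + 3 * 0 - 3 * (1 / 4 * s (2 * R)))) := by
    have := (lA.add lE).sub lB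
    refine this.congr fun N => ?_
    simp only [hψ]
    rw [sum_sub_distrib, sum_add_distrib]
    ring
  have lC : Tendsto (fun N : ℕ => (∑ i ∈ Icc 1 N, phi R (3 / 2 * W (2 * i + 1))) / N) atTop
      (𝓝 (9 / 4 * s (2 * R / 3))) := by
    have := (hs (2 * R / 3) (by linarith) 2 1 (by norm_num) le_rfl le_rfl).const_mul (9 / 4)
    refine this.congr fun N => ?_
    rw [mul_div_assoc', mul_sum]
    congr 1
    apply sum_congr rfl
    intro a _
    rw [phi_scale hR0 (by norm_num : (0 : ℝ) < 3 / 2), show R / (3 / 2) = 2 * R / 3 by ring]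
    norm_num [hW]
  -- the number of the elements of Q
  have lQ : Tendsto (fun N : ℕ => ((∑ i ∈ Icc 1 N, (if i % 3 = 0 then (1 : ℝ) else 0)) / N
      - cnt (fun i => ¬ (6 * i + 4) ∈ Gs) N / N - cnt (fun i => ¬ (2 * i + 1) ∈ Gs) N / N
      - cnt (fun i => Bd (3 * i + 2)) N / N)) atTop (𝓝 (1 / 3 - 0 - 0 - 0)) := by
    have h1 := mean_periodic (F := fun i => if i % 3 = 0 then (1 : ℝ) else 0) (q := 3) (by norm_num) (fun n => by
      simp)
    have h2 : (∑ c ∈ range 3, (if c % 3 = 0 then (1 : ℝ) else 0)) / ((3 : ℕ) : ℝ) = 1 / 3 := by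
      rw [sum_range_succ, sum_range_succ, sum_range_succ, sum_range_zero]
      norm_num
    rw [h2] at h1
    exact ((h1.sub (zero_affine (fun a => ¬ a ∈ Gs) bad_zero 6 4 (by norm_num))).sub
      (zero_affine (fun a => ¬ a ∈ Gs) bad_zero 2 1 (by norm_num))).sub (zero_affine Bd hBd0 3 2 (by norm_num))
  have hfin := le_of_tendsto_of_tendsto' (lC.add (lQ.const_mul γ)) (lψ.add he2l) (fun N => by
    have h1 := hsum N
    have h2 : ∑ i ∈ Icc 1 N, (if i % 3 = 0 then (1 : ℝ) else 0) ≤ cnt Q N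
        + cnt (fun i => ¬ (6 * i + 4) ∈ Gs) N + cnt (fun i => ¬ (2 * i + 1) ∈ Gs) N
        + cnt (fun i => Bd (3 * i + 2)) N := by
      rw [← sum_filter, sum_const, nsmul_eq_mul, mul_one]
      unfold cnt
      have hsub : (Icc 1 N).filter (fun i => i % 3 = 0) ⊆ (((Icc 1 N).filter Q ∪
          (Icc 1 N).filter fun i => ¬ (6 * i + 4) ∈ Gs) ∪ ((Icc 1 N).filter fun i => ¬ (2 * i + 1) ∈ Gs)) ∪
          ((Icc 1 N).filter fun i => Bd (3 * i + 2)) := by
        intro i hi
        rw [mem_filter] at hi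
        rw [mem_union, mem_union, mem_union, mem_filter, mem_filter, mem_filter, mem_filter]
        by_contra hcon
        push Not at hcon
        obtain ⟨⟨⟨c1, c2⟩, c3⟩, c4⟩ := hcon
        exact c1 hi.1 ((hQ i).2 ⟨by omega, c2 hi.1, c3 hi.1, c4 hi.1⟩)
      have h3 := (card_le_card hsub).trans ((card_union_le _ _).trans (Nat.add_le_add_right ((card_union_le _ _).trans
        (Nat.add_le_add_right (card_union_le _ _) _)) _))
      have h4 : ((((Icc 1 N).filter fun i => i % 3 = 0).card : ℕ) : ℝ) ≤ (((Icc 1 N).filter Q).card : ℝ)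
        + (((Icc 1 N).filter fun i => ¬ (6 * i + 4) ∈ Gs).card : ℝ)
        + (((Icc 1 N).filter fun i => ¬ (2 * i + 1) ∈ Gs).card : ℝ)
        + (((Icc 1 N).filter fun i => Bd (3 * i + 2)).card : ℝ) := by exact_mod_cast h3
      convert h4
    rcases Nat.eq_zero_or_pos N with rfl | hN
    · simp
    · have hN0 : (0 : ℝ) < N := by exact_mod_cast hN
      rw [← sub_div, ← sub_div, ← sub_div, mul_div_assoc', ← add_div, ← add_div]
      apply div_le_div_of_nonneg_right _ hN0.le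
      refine le_trans ?_ h1
      apply add_le_add_right
      apply mul_le_mul_of_nonneg_left _ hγ0
      linarith)
  have h11 : γ * (1 / 3 - 0 - 0 - 0) = c ^ 2 / 2 := by rw [hγ]; ring
  rw [h11] at hfin
  linarith

end Pool.Agent.V11311.PL
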