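import Pool.Agent.V11311.PL.D

/-! The law of `a D(a)`, part E: limiting distributions of limits in mean of periodic functions. -/

set_option autoImplicit false

namespace Pool.Agent.V11311.PL

open Finset Filter Topology MeasureTheory

/-- empirical measures -/
noncomputable def empM (w : ℕ → ℝ) (N : ℕ) : Measure ℝ :=
  ((N + 1 : ℕ) : ENNReal)⁻¹ • ∑ a ∈ Icc 1 (N + 1), Measure.dirac (w a)

instance empM_prob (w : ℕ → ℝ) (N : ℕ) : IsProbabilityMeasure (empM w N) := by
  constructor
  unfold empM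
  rw [Measure.smul_apply, Measure.finsetSum_apply]
  simp only [measure_univ, sum_const, Nat.card_Icc, Nat.add_sub_cancel, smul_eq_mul, nsmul_eq_mul, mul_one]
  exact ENNReal.inv_mul_cancel (by simp) (by simp)

/-- empirical measures, as probability measures -/
noncomputable def emp (w : ℕ → ℝ) (N : ℕ) : ProbabilityMeasure ℝ := ⟨empM w N, inferInstance⟩

theorem empM_integral {E : Type*} [NormedAddCommGroup E] [NormedSpace ℝ E] [CompleteSpace E] (w : ℕ → ℝ) (N : ℕ)
    (f : ℝ → E) : ∫ x, f x ∂(empM w N) = ((N + 1 : ℕ) : ℝ)⁻¹ • ∑ a ∈ Icc 1 (N + 1), f (w a) := by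
  unfold empM
  rw [integral_smul_measure, integral_finsetSum_measure]
  · rw [ENNReal.toReal_inv, ENNReal.toReal_natCast]
    simp only [integral_dirac]
  · intro a _
    exact integrable_dirac (by simp)

theorem avg_shift {F : ℕ → ℝ} {l : ℝ} (h : Tendsto (fun N : ℕ => (∑ a ∈ Icc 1 N, F a) / N) atTop (𝓝 l)) :
    Tendsto (fun N : ℕ => ((N + 1 : ℕ) : ℝ)⁻¹ * ∑ a ∈ Icc 1 (N + 1), F a) atTop (𝓝 l) := by
  have := h.comp (tendsto_add_atTop_nat 1)
  refine this.congr fun N => ?_
  simp only [Function.comp]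
  rw [div_eq_inv_mul]

theorem LP.lim {w : ℕ → ℝ} {g : ℕ → ℕ → ℝ} {C : ℝ} (h : LP w g C) {f : ℝ → ℝ} {L : ℝ} (hL : 0 ≤ L)
    (hf : ∀ x y, |f x - f y| ≤ L * |x - y|) : ∃ I : ℝ, (∀ m : ℕ, 1 ≤ m → |Mm g f m - I| ≤ (3 * L * C + 1) / m) ∧
      Tendsto (fun N : ℕ => (∑ i ∈ Icc 1 N, f (w i)) / N) atTop (𝓝 I) := by
  obtain ⟨I, h1, h2⟩ := h.exists_I hL hf
  refine ⟨I, h1, ?_⟩
  have := h2 1 0 le_rfl (by norm_num) (by norm_num)
  simpa only [one_mul, add_zero] using this

theorem cos_lip (t x y : ℝ) : |Real.cos (t * x) - Real.cos (t * y)| ≤ |t| * |x - y| := by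
  refine (Real.abs_cos_sub_cos_le _ _).trans (le_of_eq ?_)
  rw [← mul_sub, abs_mul]

theorem sin_lip (t x y : ℝ) : |Real.sin (t * x) - Real.sin (t * y)| ≤ |t| * |x - y| := by
  refine (Real.abs_sin_sub_sin_le _ _).trans (le_of_eq ?_)
  rw [← mul_sub, abs_mul]

/-- limits in mean of periodic functions have limiting distributions -/
theorem LP.exists_nu {w : ℕ → ℝ} {g : ℕ → ℕ → ℝ} {C : ℝ} (h : LP w g C) :
    ∃ ν : ProbabilityMeasure ℝ, Tendsto (emp w) atTop (𝓝 ν) := by
  have hc : ∀ t : ℝ, ∃ I : ℝ, Tendsto (fun N : ℕ => (∑ i ∈ Icc 1 N, Real.cos (t * w i)) / N) atTop (𝓝 I) := by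
    intro t
    obtain ⟨I, _, hI⟩ := h.lim (f := fun x => Real.cos (t * x)) (abs_nonneg t) (cos_lip t)
    exact ⟨I, hI⟩
  have hs : ∀ t : ℝ, ∃ I : ℝ, Tendsto (fun N : ℕ => (∑ i ∈ Icc 1 N, Real.sin (t * w i)) / N) atTop (𝓝 I) := by
    intro t
    obtain ⟨I, _, hI⟩ := h.lim (f := fun x => Real.sin (t * x)) (abs_nonneg t) (sin_lip t)
    exact ⟨I, hI⟩
  obtain ⟨K, _, hK⟩ := h.lim (f := fun x => x) (L := 1) zero_le_one (fun x y => by rw [one_mul])
  choose Ic hIc using hc
  choose Is hIs using hs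
  have hchar : ∀ t : ℝ, Tendsto (fun N : ℕ => charFun (emp w N : Measure ℝ) t) atTop (𝓝 ((Ic t : ℂ) + Is t * Complex.I)) := by
    intro t
    have h1 := avg_shift (hIc t)
    have h2 := avg_shift (hIs t)
    have h3 := (Complex.continuous_ofReal.tendsto _).comp h1
    have h4 := ((Complex.continuous_ofReal.tendsto _).comp h2).mul_const Complex.I
    refine (h3.add h4).congr fun N => ?_
    simp only [Function.comp]
    rw [charFun_apply_real]
    change _ = ∫ x, Complex.exp (t * x * Complex.I) ∂(empM w N)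
    rw [empM_integral]
    have h5 : ∀ a ∈ Icc 1 (N + 1), Complex.exp (t * (w a : ℂ) * Complex.I)
        = ((Real.cos (t * w a) : ℝ) : ℂ) + ((Real.sin (t * w a) : ℝ) : ℂ) * Complex.I := by
      intro a _
      rw [Complex.exp_mul_I]
      push_cast
      rfl
    rw [sum_congr rfl h5, sum_add_distrib, ← sum_mul, Complex.real_smul]
    push_cast
    ring
  have hcont : ContinuousAt (fun t : ℝ => ((Ic t : ℂ) + Is t * Complex.I)) 0 := by
    have hK0 : 0 ≤ K := ge_of_tendsto' hK fun N => div_nonneg (sum_nonneg fun i _ => h.w0 i) (Nat.cast_nonneg _)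
    have hbc : ∀ t : ℝ, |Ic t - 1| ≤ |t| * K := by
      intro t
      have h1 := ((hIc t).sub_const 1).abs
      apply le_of_tendsto_of_tendsto h1 (hK.const_mul |t|)
      filter_upwards [eventually_ge_atTop 1] with N hN
      have hN0 : (0 : ℝ) < N := by
        have : 0 < N := hN
        exact_mod_cast this
      have h2 : (∑ i ∈ Icc 1 N, Real.cos (t * w i)) / N - 1 = (∑ i ∈ Icc 1 N, (Real.cos (t * w i) - 1)) / N := by
        rw [sum_sub_distrib, sum_const, Nat.card_Icc, Nat.add_sub_cancel, nsmul_eq_mul, mul_one]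
        field_simp
      rw [h2, abs_div, Nat.abs_cast, mul_div_assoc']
      apply div_le_div_of_nonneg_right _ hN0.le
      refine (abs_sum_le_sum_abs _ _).trans ?_
      rw [mul_sum]
      apply sum_le_sum
      intro i _
      have h3 := cos_lip t (w i) 0
      rw [mul_zero, Real.cos_zero, sub_zero, abs_of_nonneg (h.w0 i)] at h3
      exact h3
    have hbs : ∀ t : ℝ, |Is t| ≤ |t| * K := by
      intro t
      apply le_of_tendsto_of_tendsto (hIs t).abs (hK.const_mul |t|)
      filter_upwards [eventually_ge_atTop 1] with N hN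
      have hN0 : (0 : ℝ) < N := by
        have : 0 < N := hN
        exact_mod_cast this
      rw [abs_div, Nat.abs_cast, mul_div_assoc']
      apply div_le_div_of_nonneg_right _ hN0.le
      refine (abs_sum_le_sum_abs _ _).trans ?_
      rw [mul_sum]
      apply sum_le_sum
      intro i _
      have h3 := sin_lip t (w i) 0
      rw [mul_zero, Real.sin_zero, sub_zero, sub_zero, abs_of_nonneg (h.w0 i)] at h3
      exact h3
    have h0 : Tendsto (fun t : ℝ => |t| * K) (𝓝 0) (𝓝 0) := by
      have h1 : Continuous fun t : ℝ => |t| * K := by fun_prop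
      have := h1.tendsto 0
      rwa [abs_zero, zero_mul] at this
    have hc1 : Tendsto Ic (𝓝 0) (𝓝 1) := by
      rw [tendsto_iff_dist_tendsto_zero]
      exact squeeze_zero (fun t => dist_nonneg) (fun t => by rw [Real.dist_eq]; exact hbc t) h0
    have hs1 : Tendsto Is (𝓝 0) (𝓝 0) := by
      rw [tendsto_iff_dist_tendsto_zero]
      exact squeeze_zero (fun t => dist_nonneg) (fun t => by rw [Real.dist_eq, sub_zero]; exact hbs t) h0
    have hIc0 : Ic 0 = 1 := by
      have := hbc 0
      rw [abs_zero, zero_mul] at this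
      have := abs_nonpos_iff.1 this
      linarith
    have hIs0 : Is 0 = 0 := by
      have := hbs 0
      rw [abs_zero, zero_mul] at this
      exact abs_nonpos_iff.1 this
    have h3 := (Complex.continuous_ofReal.tendsto _).comp hc1
    have h4 := ((Complex.continuous_ofReal.tendsto _).comp hs1).mul_const Complex.I
    have h5 := h3.add h4
    unfold ContinuousAt
    simp only [hIc0, hIs0]
    exact h5
  have htight : IsTightMeasureSet (Set.range fun N => (emp w N : Measure ℝ)) :=
    isTightMeasureSet_of_tendsto_charFun hcont hchar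
  have hcompact : IsCompact (closure (Set.range (emp w))) := by
    apply isCompact_closure_of_isTightMeasureSet
    have : {((μ : ProbabilityMeasure ℝ) : Measure ℝ) | μ ∈ Set.range (emp w)} = Set.range fun N => (emp w N : Measure ℝ) := by
      ext μ
      constructor
      · rintro ⟨_, ⟨N, rfl⟩, rfl⟩
        exact ⟨N, rfl⟩
      · rintro ⟨N, rfl⟩
        exact ⟨_, ⟨N, rfl⟩, rfl⟩
    rw [this]
    exact htight
  obtain ⟨ν, _, hν⟩ := hcompact.exists_mapClusterPt (u := emp w) (f := atTop)
    (Filter.tendsto_principal.2 (Filter.Eventually.of_forall fun N => subset_closure ⟨N, rfl⟩))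
  refine ⟨ν, ?_⟩
  rw [mapClusterPt_iff_ultrafilter] at hν
  obtain ⟨U, hU, hUν⟩ := hν
  apply ProbabilityMeasure.tendsto_of_tendsto_charFun
  intro t
  have h1 : Tendsto (fun N => charFun (emp w N : Measure ℝ) t) U (𝓝 (charFun (ν : Measure ℝ) t)) := by
    rw [ProbabilityMeasure.tendsto_iff_forall_integral_rclike_tendsto ℂ] at hUν
    simp_rw [charFun_eq_integral_innerProbChar]
    exact hUν (BoundedContinuousFunction.innerProbChar t)
  have h2 := tendsto_nhds_unique h1 ((hchar t).mono_left hU)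
  rw [h2]
  exact hchar t

end Pool.Agent.V11311.PL
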